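import Pool.Agent.Lib.VF72.Par
import Pool.Agent.Lib.MP_9cdd18_an.CXPompeiu

/-! The lemma of Dolbeault and Grothendieck for forms of type `(0,1)`. -/

open scoped Classical Topology ContDiff
open Set MeasureTheory Complex Metric Filter

noncomputable section

namespace Pool.Agent.Lib.VF72

open Pool.Agent.Lib.SV (E)
open Pool.Agent.Lib.HS32 Pool.Agent.Lib.MP_9cdd18_an.CX

variable {n : ℕ}

/-- The truncated kernel of Cauchy. -/
def kw (R : ℝ) : ℂ → ℂ := (closedBall (0 : ℂ) R).indicator fun t => t⁻¹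

theorem wg_kw (R : ℝ) : Wg (kw R) := by
  refine ⟨(integrable_indicator_iff measurableSet_closedBall).2 ?_,
    HasCompactSupport.intro (isCompact_closedBall 0 R) fun t ht => indicator_of_notMem ht _⟩
  refine (locallyIntegrable_of_norm_le_rpow (C := 1) (α := 1) (by simp) (by simp)
    (.of_forall fun t => ?_) measurable_inv.aestronglyMeasurable).integrableOn_isCompact
    (isCompact_closedBall 0 R)
  simp [Real.rpow_neg_one]

theorem pomp {g : ℂ → ℂ} (hg : ContDiff ℝ 1 g) {R : ℝ} (hs : ∀ t ∉ closedBall (0 : ℂ) R, g t = 0) :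
    ∫ t, kw R t * dbar g t = -(2 * Real.pi) * g 0 := by
  rw [← pompeiu_aux hg (HasCompactSupport.intro (isCompact_closedBall 0 R) hs) 0]
  refine integral_congr_ae (.of_forall fun t => ?_)
  by_cases ht : t ∈ closedBall (0 : ℂ) R
  · simp only [kw, indicator_of_mem ht, sub_zero]
    ring
  have : g =ᶠ[𝓝 t] fun _ => 0 :=
    (isClosed_closedBall.isOpen_compl.eventually_mem ht).mono fun s h => hs s h
  simp [kw, indicator_of_notMem ht, dbar, this.fderiv_eq]

theorem fd_shift (F : E n → ℂ) (a z v : E n) :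
    fderiv ℝ (fun x => F (x + a)) z v = fderiv ℝ F (z + a) v := by rw [fderiv_comp_add_right]

/-- One step: the equation in one variable. -/
theorem cauchy {f : E n → ℂ} {c : E n} {r : ℝ} (hr : 0 < r) (k : Fin n)
    (hf : ∀ z ∈ ball c r, ContDiffAt ℝ ∞ f z) : ∃ u : E n → ℂ, ∀ z ∈ ball c (r / 4),
      ContDiffAt ℝ ∞ u z ∧ dzb k u z = f z ∧
      ∀ j, j ≠ k → (∀ y ∈ ball c r, dzb j f y = 0) → dzb j u z = 0 := by
  let χ : ContDiffBump (c k) := ⟨r / 4, r / 2, by positivity, by linarith⟩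
  set F : E n → ℂ := fun y => (χ (y k) : ℂ) * f y with hF
  have hχ : ContDiff ℝ ∞ fun y : E n => (χ (y k) : ℂ) :=
    ofRealCLM.contDiff.comp (χ.contDiff.comp (contDiff_apply ℝ ℂ k))
  have out : ∀ y : E n, r / 2 < dist (y k) (c k) → F =ᶠ[𝓝 y] fun _ => 0 := fun y hy => by
    filter_upwards [(isOpen_lt continuous_const
      (by fun_prop : Continuous fun y : E n => dist (y k) (c k))).mem_nhds hy] with x hx
    rw [hF]
    simp only [χ.zero_of_le_dist (le_of_lt hx), ofReal_zero, zero_mul]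
  have alt : ∀ z ∈ ball c r, ∀ t : ℂ, z + Pi.single k t ∈ ball c r ∨
      r / 2 < dist ((z + Pi.single k t : E n) k) (c k) := fun z hz t => by
    by_cases h : r / 2 < dist ((z + Pi.single k t : E n) k) (c k)
    · exact Or.inr h
    refine Or.inl ((dist_pi_lt_iff hr).2 fun j => ?_)
    by_cases e : j = k
    · subst e; linarith [not_lt.1 h]
    · simpa [e] using (dist_pi_lt_iff hr).1 hz j
  have sF : ∀ z ∈ ball c r, ∀ t : ℂ, ContDiffAt ℝ ∞ F (z + Pi.single k t) := fun z hz t =>
    (alt z hz t).elim (fun h => hχ.contDiffAt.mul (hf _ h))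
      fun h => contDiffAt_const.congr_of_eventuallyEq (out _ h)
  let L : ℂ →L[ℝ] E n := ContinuousLinearMap.single ℝ (fun _ => ℂ) k
  have hJ : Jt (ball c r) fun t z => F (z + Pi.single k t) := fun t z hz =>
    ContDiffAt.comp (f := fun p : ℂ × E n => p.2 + L p.1) (t, z) (sF z hz t)
      (contDiffAt_snd.add (L.contDiff.contDiffAt.comp _ contDiffAt_fst))
  have hw := wg_kw (2 * r)
  have hd : ∀ z ∈ ball c r, ∀ j, dzb j (fun z => -(Real.pi : ℂ)⁻¹ *
      ∫ t, kw (2 * r) t * F (z + Pi.single k t)) z =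
      -(Real.pi : ℂ)⁻¹ * ∫ t, kw (2 * r) t * dzb j F (z + Pi.single k t) := fun z hz j => by
    rw [dzb_const_mul _ (cd_diff (hJ.sm hw isOpen_ball hz)), hJ.dzb_int hw isOpen_ball hz]
    simp only [dzb, fd_shift]
  refine ⟨fun z => -(Real.pi : ℂ)⁻¹ * ∫ t, kw (2 * r) t * F (z + Pi.single k t), fun z hz => ?_⟩
  have hz' : z ∈ ball c r := ball_subset_ball (by linarith) hz
  have hk : dist (z k) (c k) < r / 4 := (dist_pi_lt_iff (by positivity)).1 hz k
  refine ⟨contDiffAt_const.mul (hJ.sm hw isOpen_ball hz'), ?_, fun j hj h0 => ?_⟩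
  · have h1 := pomp (R := 2 * r) ((hJ.left hz').of_le (m := 1) (by simp)) fun t ht => by
      refine (out _ ?_).eq_of_nhds
      have h2 := dist_triangle_right (z k + t) (z k) (c k)
      simp only [mem_closedBall, dist_zero_right, not_le, dist_self_add_left] at ht h2
      simp only [Pi.add_apply, Pi.single_eq_same]
      linarith
    have h2 : ∀ t, dbar (fun t => F (z + Pi.single k t)) t = 2 * dzb k F (z + Pi.single k t) :=
      fun t => by
        have h3 := ((cd_diff (sF z hz' t)).hasFDerivAt.comp t (L.hasFDerivAt.const_add z)).fderiv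
        rw [dbar, show fderiv ℝ (fun t => F (z + Pi.single k t)) t = _ from h3, dzb]
        simp only [ContinuousLinearMap.comp_apply, L, ContinuousLinearMap.single_apply]
        ring
    simp only [h2, mul_left_comm _ (2 : ℂ), integral_const_mul, Pi.single_zero, add_zero] at h1
    have h4 : F z = f z := by
      rw [hF]
      simp only [χ.one_of_mem_closedBall hk.le, ofReal_one, one_mul]
    have h5 : (Real.pi : ℂ) ≠ 0 := ofReal_ne_zero.2 Real.pi_ne_zero
    rw [hd z hz', ← h4]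
    field_simp
    linear_combination -h1 / 2
  · rw [hd z hz', integral_eq_zero_of_ae (.of_forall fun t => ?_), mul_zero]
    have : dzb j F (z + Pi.single k t) = 0 := by
      rcases alt z hz' t with h | h
      · have h1 : dzb j (fun y : E n => (χ (y k) : ℂ)) (z + Pi.single k t) = 0 := by
          have h2 := (((ofRealCLM.contDiff.comp (χ.contDiff (n := 1))).differentiable one_ne_zero
            ((z + Pi.single k t : E n) k)).hasFDerivAt.comp (z + Pi.single k t)
            (ContinuousLinearMap.proj (R := ℝ) (φ := fun _ : Fin n => ℂ) k).hasFDerivAt).fderiv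
          rw [dzb, show fderiv ℝ (fun y : E n => (χ (y k) : ℂ)) _ = _ from h2]
          simp [hj.symm]
        rw [hF, dzb_mul (cd_diff hχ.contDiffAt) (cd_diff (hf _ h)), h1, h0 _ h]
        simp
      · rw [dzb_congr (out _ h), dzb_const]
    simp [this]

theorem dolb {a : Fin n → E n → ℂ} {c : E n} {R : ℝ} (hR : 0 < R)
    (ha : ∀ i, ∀ z ∈ ball c R, ContDiffAt ℝ ∞ (a i) z)
    (hcl : ∀ z ∈ ball c R, ∀ i j, dzb i (a j) z = dzb j (a i) z) :
    ∃ r, 0 < r ∧ r ≤ R ∧ ∃ ψ : E n → ℂ, ∀ z ∈ ball c r,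
      ContDiffAt ℝ ∞ ψ z ∧ ∀ i, dzb i ψ z = a i z := by
  have key : ∀ k, k ≤ n → ∃ r, 0 < r ∧ r ≤ R ∧ ∃ ψ : E n → ℂ, ∀ z ∈ ball c r,
      ContDiffAt ℝ ∞ ψ z ∧ ∀ i : Fin n, i.val < k → dzb i ψ z = a i z := by
    intro k
    induction k with
    | zero => exact fun _ => ⟨R, hR, le_rfl, fun _ => 0, fun z _ => ⟨contDiffAt_const, by simp⟩⟩
    | succ k ih =>
      intro hk
      obtain ⟨r, h0, h1, ψ, hψ⟩ := ih (by omega)
      have hs : ball c r ⊆ ball c R := ball_subset_ball h1
      obtain ⟨u, hu⟩ := cauchy h0 ⟨k, hk⟩ (f := fun z => a ⟨k, hk⟩ z - dzb ⟨k, hk⟩ ψ z)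
        fun z hz => (ha _ z (hs hz)).sub (cd_dzb (hψ z hz).1 _)
      refine ⟨r / 4, by positivity, by linarith, fun z => ψ z + u z, fun z hz => ?_⟩
      have hz' : z ∈ ball c r := ball_subset_ball (by linarith) hz
      refine ⟨(hψ z hz').1.add (hu z hz).1, fun i hi => ?_⟩
      rw [dzb_add (cd_diff (hψ z hz').1) (cd_diff (hu z hz).1)]
      by_cases e : i = ⟨k, hk⟩
      · rw [e, (hu z hz).2.1]; ring
      have hi' : i.val < k := by
        have : i.val ≠ k := fun h => e (Fin.ext h)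
        omega
      rw [(hu z hz).2.2 i e fun y hy => ?_, add_zero, (hψ z hz').2 i hi']
      rw [dzb_sub (cd_diff (ha _ y (hs hy))) (cd_diff (cd_dzb (hψ y hy).1 _)),
        dzb_dzb (hψ y hy).1, hcl y (hs hy), dzb_congr (g := a i)
          ((isOpen_ball.eventually_mem hy).mono fun x hx => (hψ x hx).2 i hi'), sub_self]
  obtain ⟨r, h0, h1, ψ, hψ⟩ := key n le_rfl
  exact ⟨r, h0, h1, ψ, fun z hz => ⟨(hψ z hz).1, fun i => (hψ z hz).2 i i.2⟩⟩

end Pool.Agent.Lib.VF72
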