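import Pool.Agent.Lib.HS32.MAll

/-! Forms of type `(0,1)` and the vanishing argument of Bott. -/

open scoped Classical Topology ContDiff ENNReal ComplexOrder Matrix
open Set MeasureTheory Complex Metric Filter

noncomputable section

namespace Pool.Agent.Lib.VF72

open Pool.Agent.Lib.SV (E)
open Pool.Agent.Lib.HS32

variable {n : ℕ} {M : Mf n} {σ V : M.Fam (E n)} {H T : M.Fam (Mat n)}

/-- A smooth form of type `(0,1)`. -/
structure Co (M : Mf n) (σ : M.Fam (E n)) : Prop where
  sm : M.All fun e z => ContDiffAt ℝ ∞ (σ e) z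
  cmp : M.Ov fun e e' x => σ e' (e' x) = (M.J e e' x)ᴴ *ᵥ σ e (e x)

/-- Its `(1,0)` derivative. -/
def dC (σ : E n → E n) (z : E n) : Mat n := Matrix.of fun i j => dz j (fun w => σ w i) z

theorem smM_dC {σ : E n → E n} {z : E n} (h : ContDiffAt ℝ ∞ σ z) : SmM (dC σ) z :=
  fun i j => cd_dz (contDiffAt_pi.1 h i) j

theorem clM_dC {σ : E n → E n} {z : E n} (h : ContDiffAt ℝ ∞ σ z) : ClM (dC σ) z :=
  fun i j k => dz_dz (contDiffAt_pi.1 h i) k j

theorem Co.ten (h : Co M σ) : M.Ten fun e => dC (σ e) := by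
  refine ⟨fun e he z hz => smM_dC (h.sm e he z hz), fun e he e' he' x hx hx' => ?_⟩
  obtain ⟨hH, -, -, hev, -⟩ := (mTR n M).2.1 e he e' he' x hx hx'
  have hψ : (e ∘ e'.symm) (e' x) = e x := by simp [e'.left_inv hx']
  obtain ⟨c1, c2, -, c3, -, -, -, -, -, c4, -⟩ := mCHN n _ _ hH
  have s := fun a => cd_diff (contDiffAt_pi.1 (h.sm e he _ (e.map_source hx)) a)
  rw [← hψ] at s
  ext i j
  have e1 : (fun w => σ e' w i) =ᶠ[𝓝 (e' x)] fun w =>
      ∑ a, star (jm (e ∘ e'.symm) w a i) * ((fun y => σ e y a) ∘ e ∘ e'.symm) w := by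
    filter_upwards [hev] with w hw
    have := h.cmp e he e' he' _ hw.2.1 hw.2.2.1
    beta_reduce at this
    rw [hw.2.2.2.2.2.1, hw.2.2.2.2.2.2] at this
    rw [this]
    rfl
  have d := fun a => (s a).comp _ (cd_diff c1)
  show dz j _ _ = _
  rw [dz_congr e1, dz_sum fun a _ => (diff_star (c2.diff a i)).fun_mul (d a), Matrix.mul_assoc,
    Matrix.mul_apply]
  refine Finset.sum_congr rfl fun a _ => ?_
  rw [dz_mul (diff_star (c2.diff a i)) (d a), dz_star (c2.diff a i),
    show dzb j _ _ = 0 from congrFun (congrFun (c3 j) a) i, (c4 _ (s a) j).1, hψ, star_zero,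
    zero_mul, zero_add]
  rfl

theorem co_mul (hT : M.Ten T) (hV : M.Vec V) : Co M fun e z => T e z *ᵥ V e z :=
  ⟨fun e he z hz => (hT.sm e he z hz).mulVec (hV.sm e he z hz), fun e he e' he' x hx hx' => by
    beta_reduce
    rw [hT.cmp e he e' he' x hx hx', ← hV.cmp e he e' he' x hx hx']
    simp only [Matrix.mulVec_mulVec, Matrix.mul_assoc]⟩

theorem Co.smul (h : Co M σ) {F : M.X → ℂ} (hF : M.Sm F) :
    Co M fun e z => F (e.symm z) • σ e z :=
  ⟨fun e he z hz => (hF e he z hz).smul (h.sm e he z hz), fun e he e' he' x hx hx' => by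
    beta_reduce
    rw [h.cmp e he e' he' x hx hx', e.left_inv hx, e'.left_inv hx', Matrix.mulVec_smul]⟩

theorem cd_dot {a b : E n → E n} {z : E n} (ha : ContDiffAt ℝ ∞ a z) (hb : ContDiffAt ℝ ∞ b z) :
    ContDiffAt ℝ ∞ (fun w => star (a w) ⬝ᵥ b w) z :=
  ContDiffAt.sum fun i _ => (cd_star (contDiffAt_pi.1 ha i)).mul (contDiffAt_pi.1 hb i)

theorem Co.inv (h : Co M σ) (hV : M.Vec V) : M.Inv fun e z => star (V e z) ⬝ᵥ σ e z :=
  fun e he e' he' x hx hx' => by
    beta_reduce
    rw [h.cmp e he e' he' x hx hx', ← hV.cmp e he e' he' x hx hx', Matrix.star_mulVec,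
      Matrix.dotProduct_mulVec]

theorem dz_dot {a b : E n → E n} {z : E n} (ha : ContDiffAt ℝ ∞ a z) (hb : ContDiffAt ℝ ∞ b z)
    (h0 : ∀ i j, dzb j (fun w => a w i) z = 0) (j : Fin n) :
    dz j (fun w => star (a w) ⬝ᵥ b w) z = (star (a z) ᵥ* dC b z) j := by
  have s := fun i => cd_diff (contDiffAt_pi.1 ha i)
  have s' := fun i => cd_diff (contDiffAt_pi.1 hb i)
  refine (dz_sum fun i _ => (diff_star (s i)).fun_mul (s' i)).trans
    (Finset.sum_congr rfl fun i _ => ?_)
  rw [dz_mul (diff_star (s i)) (s' i), dz_star (s i), h0, star_zero, zero_mul, zero_add]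
  rfl

theorem div0 [hM : M.Cpt] (hH : M.Met H) (hT : M.Ten T) (hc : M.All fun e z => ClM (T e) z)
    (h : Co M σ) :
    ∫ x, M.ev (fun e z => ((T e z).adjugate * dC (σ e) z).trace / (H e z).det) x ∂M.mu H = 0 := by
  have hW : M.VDen fun e z => (T e z).adjugate *ᵥ σ e z :=
    ⟨fun e he z hz => (hT.sm e he z hz).adjugate.mulVec (h.sm e he z hz),
      fun e he e' he' x hx hx' => by
        beta_reduce
        rw [hT.cmp e he e' he' x hx hx', h.cmp e he e' he' x hx hx', BGRN.alg]⟩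
  rw [← ((mDIV n M H hH).2.1 _ hW).2.2 hM]
  refine congrArg (fun f : M.X → ℂ => ∫ x, f x ∂M.mu H) (Mf.ev_congr fun e he z hz => ?_)
  have hA := (hT.sm e he z hz).adjugate
  have h0 := (mCOF n _ z (hT.sm e he z hz)).2.2.2.1 (hc e he z hz)
  have s := fun i => cd_diff (contDiffAt_pi.1 (h.sm e he z hz) i)
  have h1 : ∀ j, dz j (fun w => ((T e w).adjugate *ᵥ σ e w) j) z =
      ∑ i, dM j (fun y => (T e y).adjugate) z j i * σ e z i +
        ∑ i, (T e z).adjugate j i * dC (σ e) z i j := fun j => by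
    rw [← Finset.sum_add_distrib]
    exact (dz_sum (s := Finset.univ) (j := j) fun i _ => (hA.diff j i).fun_mul (s i)).trans
      (Finset.sum_congr rfl fun i _ => dz_mul (hA.diff j i) (s i))
  beta_reduce
  rw [dv]
  simp only [h1]
  rw [Finset.sum_add_distrib, Finset.sum_comm]
  simp only [← Finset.sum_mul, h0, zero_mul, Finset.sum_const_zero, zero_add]
  rfl

open BCOH Polynomial in
theorem vol_d [hM : M.Cpt] (hH : M.Met H) (hT : M.Ten T) (hc : M.All fun e z => ClM (T e) z)
    (h : Co M σ) : ∫ x, M.ev (fun e z => (T e z + dC (σ e) z).det / (H e z).det) x ∂M.mu H =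
      ∫ x, M.ev (fun e z => (T e z).det / (H e z).det) x ∂M.mu H := by
  have hL : ∀ t : ℂ, M.Ten fun e z => T e z + t • dC (σ e) z := fun t =>
    hT.add (h.ten.csmul (Mf.sm_const t))
  have hc' : ∀ t : ℂ, M.All fun e z => ClM (fun z => T e z + t • dC (σ e) z) z :=
    fun t e he z hz i j k => by
      have s2 := smM_dC (h.sm e he z hz)
      have d : ∀ k, dM k (fun w => T e w + t • dC (σ e) w) z =
          dM k (T e) z + t • dM k (dC (σ e)) z := fun k => by
        rw [dM_add (hT.sm e he z hz) (SmM.smul contDiffAt_const s2),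
          dM_smul (differentiableAt_const _) s2]
        simp
      rw [d, d, Matrix.add_apply, Matrix.add_apply, Matrix.smul_apply, Matrix.smul_apply,
        hc e he z hz i j k, clM_dC (h.sm e he z hz) i j k]
  have hdq : ∀ (t : ℂ) x, M.ev (fun e z => (T e z + t • dC (σ e) z).det / (H e z).det) x =
      (pl (M.ev T x) (M.ev (fun e => dC (σ e)) x) * C (M.ev H x).det⁻¹).eval t := fun t x => by
    rw [eval_mul, eval_C, pl_eval, ← div_eq_mul_inv]
    rfl
  have main := poly_int (M.mu H)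
    (fun x => pl (M.ev T x) (M.ev (fun e => dC (σ e)) x) * C (M.ev H x).det⁻¹) n
    (fun x => (natDegree_mul_C_le _ _).trans ((natDegree_det_X_add_C_le _ _).trans (by simp)))
    (fun t => by
      simp only [← hdq]
      refine (mMU n M H hH).2.2.2.2.1 ℂ _ (Mf.Inv.sm ((mINV n M H hH).1 _ (hL t)).2.2.2.2.2
        fun e he z hz => ?_).continuous
      simp only [div_eq_mul_inv]
      exact ((hL t).sm e he z hz).det.mul ((hH.sm e he z hz).det.inv (hH.det_ne e he z hz)))
    (fun t => by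
      rw [← div0 hH (hL t) (hc' t) h]
      refine integral_congr_ae (ae_of_all _ fun x => ?_)
      simp only [Mf.ev, derivative_mul, derivative_C, mul_zero, add_zero, eval_mul, eval_C,
        pl_deriv, div_eq_mul_inv])
  simpa only [← hdq, one_smul, zero_smul, add_zero] using main

theorem bott [hM : M.Cpt] (hH : M.Met H) (hT : M.Clo T) (hV : M.Vec V)
    (hol : M.All fun e z => ∀ i j, dzb j (fun w => V e w i) z = 0)
    (hV0 : M.All fun e z => V e z ≠ 0) {F : M.X → ℂ} (hF : M.Sm F)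
    (h : M.All fun e z => ∀ i, (T e z *ᵥ V e z) i = dzb i (F ∘ e.symm) z) :
    ∫ x, M.dq H T x ∂M.mu H = 0 := by
  have c1 := co_mul hH.toTen hV
  have i1 := c1.inv hV
  set N := M.ev fun e z => star (V e z) ⬝ᵥ H e z *ᵥ V e z with hN
  have n0 : ∀ x, N x ≠ 0 := fun x =>
    ((hH.ev_pos x).dotProduct_mulVec_pos (Mf.AllOn.ch hV0 x)).ne'
  have sN : M.Sm N := i1.sm fun e he z hz => cd_dot (hV.sm e he z hz) (c1.sm e he z hz)
  have c2 := c1.smul (F := fun x => -star (F x) * (N x)⁻¹) fun e he z hz =>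
    (cd_star (hF e he z hz)).neg.mul ((sN e he z hz).inv (n0 _))
  have key := vol_d hH hT.toTen hT.cl c2
  rw [Mf.ev_congr (Ψ := fun _ _ => 0) fun e he z hz => ?_] at key
  · have e1 : ∀ x, M.ev (fun e z => (T e z).det / (H e z).det) x = (M.dq H T x : ℂ) := fun x => by
      have := (Mf.AllOn.ch ((mINV n M H hH).2.1 T hT.toForm) x).2.1
      rw [Mf.ch_symm] at this
      exact this.symm
    simp only [e1, integral_complex_ofReal] at key
    simp only [Mf.ev, integral_zero] at key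
    exact_mod_cast key.symm
  refine div_eq_zero_iff.2 (Or.inl (Matrix.exists_vecMul_eq_zero_iff.1 ⟨star (V e z), by simpa using hV0 e he z hz,
    funext fun j => ?_⟩))
  rw [Matrix.vecMul_add, Pi.add_apply, ← dz_dot (hV.sm e he z hz) (c2.sm e he z hz)
    (hol e he z hz), dz_congr (g := fun w => -star ((F ∘ e.symm) w)), dz_neg,
    dz_star (cd_diff (hF e he z hz)), ← h e he z hz j, ← Pi.star_apply (T e z *ᵥ V e z),
    Matrix.star_mulVec, (hT.herm e he z hz).eq, add_neg_cancel, Pi.zero_apply]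
  filter_upwards [Mf.AllOn.ev i1.rep he hz] with w hw
  rw [dotProduct_smul, ← hw, smul_eq_mul, inv_mul_cancel_right₀ (n0 _)]
  rfl

end Pool.Agent.Lib.VF72
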