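import Pool.Agent.Lib.VF72.Mass
import Pool.Agent.Lib.VF72.Bott
import Pool.Agent.Lib.VF72.Dol
import Pool.Agent.Lib.HS.B_LIMH1
import Pool.Agent.Lib.HS.B_PAR

/-! Limits in the mean on a compact manifold. -/

open scoped Classical Topology ContDiff ENNReal ComplexOrder Matrix
open Set MeasureTheory Complex Metric Filter

noncomputable section

namespace Pool.Agent.Lib.VF72

open Pool.Agent.Lib.SV (E)
open Pool.Agent.Lib.HS32 Pool.Agent.Lib.HS66

variable {n : ℕ} {M : Mf n} {σ τ V : M.Fam (E n)} {H T : M.Fam (Mat n)} {ι : Type}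
  {p : (ι → ℝ≥0∞) → Prop} {e e' : M.Ch}

theorem limh (l : Ultrafilter ι) {U : Set (E n)} {Q : ι → E n → ℂ} (hU : IsOpen U)
    (hQ : ∀ a, ∀ z ∈ U, ContDiffAt ℝ ∞ (Q a) z) (hb : Lo pB U Q)
    (h0 : ∀ j, Lo (pN l) U fun a => dzb j (Q a)) :
    ∃ P : E n → ℂ, (∀ z ∈ U, HolN P z) ∧ Lo (pN l) U fun a z => Q a z - P z :=
  let ⟨P, h1, h2⟩ := HS.st_LIMH1 n ι l Q U hU (fun a z hz => cd_le (hQ a z hz) 1) hb
    fun K hK hK' j => h0 j K hK hK'
  ⟨P, fun _ hz => (hU.eventually_mem hz).mono fun _ hw => h1.differentiableAt (hU.mem_nhds hw), h2⟩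

theorem uniq {l : Filter ι} [l.NeBot] {U : Set (E n)} {Q : ι → E n → ℂ} {P P' : E n → ℂ}
    (hU : IsOpen U) (hQ : Ct U Q) (hP : ∀ z ∈ U, ContinuousAt P z)
    (hP' : ∀ z ∈ U, ContinuousAt P' z) (h : Lo (pN l) U fun a z => Q a z - P z)
    (h' : Lo (pN l) U fun a z => Q a z - P' z) : ∀ z ∈ U, P z = P' z :=
  lim_uniq (l := l) hU (fun a z hz => (hQ a z hz).continuousWithinAt)
    (fun z hz => (hP z hz).continuousWithinAt) (fun z hz => (hP' z hz).continuousWithinAt) h h'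

theorem det_cont (hH : M.Met H) (he : e ∈ M.C) {z : E n} (hz : z ∈ e.target) :
    ContinuousAt (fun w => (H e w).det.re) z := (cd_re (hH.sm e he z hz).det).continuousAt

theorem lo_of [M.Cpt] (hp : Idl p) (hH : M.Met H) (he : e ∈ M.C) {K : Set (E n)}
    (hK : IsCompact K) (hs : K ⊆ e.target) {f : ι → M.X → ℝ≥0∞}
    (h : p fun a => ∫⁻ x in e.symm '' K, f a x ∂M.mu H) : p fun a => ∫⁻ z in K, f a (e.symm z) := by
  simp only [((mMU n M H hH).2.2.2.2.2.1 e he K hK.measurableSet hs).2.1] at h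
  refine hp.dom hK (φ := fun z => (H e z).det.re⁻¹) (fun z hz => (det_cont hH he (hs hz)).inv₀
    (Mf.pd_det_re (hH.pos e he z (hs hz))).ne') (fun a z hz => ?_) h
  have h1 := Mf.pd_det_re (hH.pos e he z (hs hz))
  rw [← mul_assoc, ← ENNReal.ofReal_mul (by positivity), inv_mul_cancel₀ h1.ne',
    ENNReal.ofReal_one, one_mul]

/-- The part of the target of `e'` that is sent into `U` by the change of chart. -/
def ov (e e' : M.Ch) (U : Set (E n)) : Set (E n) :=
  e'.target ∩ e'.symm ⁻¹' (e.source ∩ e ⁻¹' U)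

theorem ov_open {U : Set (E n)} (hU : IsOpen U) : IsOpen (ov e e' U) :=
  e'.symm.isOpen_inter_preimage (e.isOpen_inter_preimage hU)

theorem ov_hol (he : e ∈ M.C) (he' : e' ∈ M.C) {U : Set (E n)} {z : E n} (hz : z ∈ ov e e' U) :
    HolN (e ∘ e'.symm) z := by
  have h1 := ((mTR n M).2.1 e he e' he' _ hz.2.1 (e'.map_target hz.1)).1
  rwa [e'.right_inv hz.1] at h1

theorem Lo.chg [M.Cpt] (hp : Idl p) (hH : M.Met H) (he : e ∈ M.C) (he' : e' ∈ M.C)
    {U : Set (E n)} {Q : ι → E n → ℂ} (h : Lo p U Q) :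
    Lo p (ov e e' U) fun a z => Q a (e (e'.symm z)) := fun K hK hK' => by
  have hL : IsCompact ((e ∘ e'.symm) '' K) := hK.image_of_continuousOn fun z hz =>
    (ov_hol he he' (hK' hz)).self_of_nhds.continuousAt.continuousWithinAt
  have hL1 : (e ∘ e'.symm) '' K ⊆ e.target := by
    rintro _ ⟨z, hz, rfl⟩
    exact e.map_source (hK' hz).2.1
  have hLK : e.symm '' ((e ∘ e'.symm) '' K) = e'.symm '' K := by
    rw [image_image]
    exact image_congr fun z hz => e.left_inv (hK' hz).2.1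
  refine lo_of hp hH he' hK (hK'.trans inter_subset_left) (f := fun a x => ‖Q a (e x)‖ₑ) ?_
  simp only [← hLK, ((mMU n M H hH).2.2.2.2.2.1 e he _ hL.measurableSet hL1).2.1]
  refine hp.dom hL (fun z hz => det_cont hH he (hL1 hz)) (fun a z hz => ?_) (h _ hL ?_)
  · rw [e.right_inv (hL1 hz)]
  · rintro _ ⟨z, hz, rfl⟩
    exact (hK' hz).2.2

theorem co_db {F : M.X → ℂ} (hF : M.Sm F) : Co M fun e z i => dzb i (F ∘ e.symm) z := by
  refine ⟨fun e he z hz => contDiffAt_pi.2 fun i => cd_dzb (hF e he z hz) i,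
    fun e he e' he' x hx hx' => funext fun i => ?_⟩
  obtain ⟨hH, -, -, hev, -⟩ := (mTR n M).2.1 e he e' he' x hx hx'
  have hψ : (e ∘ e'.symm) (e' x) = e x := by simp [e'.left_inv hx']
  have hch := (mCHN n _ _ hH).2.2.2.2.2.2.2.2.2.1 (F ∘ e.symm)
    (by rw [hψ]; exact cd_diff (hF e he _ (e.map_source hx)))
  have heq : (F ∘ e'.symm) =ᶠ[𝓝 (e' x)] (F ∘ e.symm) ∘ (e ∘ e'.symm) := by
    filter_upwards [hev] with y hy
    simp only [Function.comp_apply, hy.2.2.2.2.1]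
  rw [dzb_congr heq, (hch i).2, hψ]
  exact Finset.sum_congr rfl fun a _ => mul_comm _ _

theorem Co.ext (h : Co M σ) (h' : Co M τ) (k : ∀ x, M.ev σ x = M.ev τ x) :
    M.All fun e z => σ e z = τ e z := Mf.allOn_of_source fun e he x hx => by
  rw [h.cmp _ (Mf.ch_mem x) e he x (Mf.mem_ch x) hx, h'.cmp _ (Mf.ch_mem x) e he x (Mf.mem_ch x) hx]
  exact congrArg _ (k x)

theorem qpsh [M.Cpt] (hH : M.Met H) (hT : M.Form T) {u : ι → M.X → ℝ} (hu : ∀ a, M.Sm (u a))
    (h : ∀ a, M.Le 0 (T + M.hs (u a))) : ∃ v : ι → M.X → ℝ, (∀ a, M.Sm (v a) ∧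
      M.All fun e z => M.hs (v a) e z = M.hs (u a) e z) ∧ ∀ e ∈ M.C, ∀ j,
      (Lo pB e.target fun a => dz j (M.lc (v a) e)) ∧
      ∀ i, Lo pB e.target fun a z => (T e z + M.hs (u a) e z) i j := by
  obtain ⟨C₀, -, h1, -⟩ := (mBD n M H hH).1 T hT
  obtain ⟨C, -, h2, -⟩ := mPSH n M H C₀ hH
  choose x hx using fun a => (hu a).exists_max
  have s : ∀ a, M.Sm fun y => u a y - u a (x a) := fun a => (hu a).sub (Mf.sm_const _)
  have e1 : ∀ a, M.All fun e z => M.hs (fun y => u a y - u a (x a)) e z = M.hs (u a) e z :=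
    fun a e he z hz => by
      have := (mLAP n M (u a) (fun _ => u a (x a)) (hu a) (Mf.sm_const _)).1 (u a (x a)) e he z hz
      beta_reduce
      rw [this.2.2.1, this.1, sub_zero]
  refine ⟨fun a y => u a y - u a (x a), fun a => ⟨s a, e1 a⟩, fun e he j => ?_⟩
  have b1 : Lo pB e.target fun a => M.lc (fun y => u a y - u a (x a)) e := fun K hK hs => by
    refine lo_of idB hH he hK hs (f := fun a y => ‖((u a y - u a (x a) : ℝ) : ℂ)‖ₑ)
      ⟨ENNReal.ofReal C, ENNReal.ofReal_ne_top, fun a => (setLIntegral_le_lintegral _ _).trans ?_⟩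
    have h3 := h2 _ (s a) ((h a).trans ((h1.add (Mf.Le.refl _)).congr (fun _ _ _ _ => rfl)
      fun e he z hz => by simp only [Pi.add_apply, e1 a e he z hz]))
      (fun y => sub_nonpos.2 (hx a y)) ⟨x a, sub_self _⟩
    rw [← ofReal_integral_norm_eq_lintegral_enorm
      ((mMU n M H hH).2.2.2.2.1 ℂ _ (s a).ofReal.continuous)]
    refine ENNReal.ofReal_le_ofReal ?_
    simp only [norm_real, fun y => Real.norm_of_nonpos (sub_nonpos.2 (hx a y)), integral_neg]
    linarith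
  have b2 := fun i => mass e.open_target (fun a => (s a).lc e he) (hT.sm e he) b1
    (fun a z hz => by
      have := h a e he z hz
      simp only [Pi.add_apply, Pi.zero_apply, sub_zero, ← e1 a e he z hz] at this
      exact this) i j
  refine ⟨grad e.open_target (fun a => (s a).lc e he) b1 j fun i =>
    (bd_const fun z hz => (hT.sm e he z hz i j).continuousAt).add idB (b2 i)
      (fun _ z hz => (hT.sm e he z hz i j).continuousAt) fun a z _ => ?_, fun i =>
    (b2 i).le idB fun a z hz => by rw [← e1 a e he z hz]; rfl⟩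
  rw [Matrix.add_apply]
  exact le_trans (le_of_eq (congrArg _ (by ring))) ((norm_sub_le _ _).trans_eq (add_comm _ _))

theorem solve [M.Cpt] (hH : M.Met H) (hσ : Co M σ) (l : Ultrafilter ι) {G : ι → M.X → ℂ}
    (hc : M.All fun e z => ∀ i j, dzb i (fun w => σ e w j) z = dzb j (fun w => σ e w i) z)
    (hG : ∀ a, M.Sm (G a)) (hb : ∀ e ∈ M.C, Lo pB e.target fun a => G a ∘ e.symm)
    (h0 : ∀ e ∈ M.C, ∀ i, Lo (pN l) e.target fun a z => σ e z i + dzb i (G a ∘ e.symm) z) :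
    ∃ F : M.X → ℂ, M.Sm F ∧ M.All fun e z => ∀ i, σ e z i = dzb i (F ∘ e.symm) z := by
  have loc : ∀ x, ∃ r > 0, ball (M.ch x x) r ⊆ (M.ch x).target ∧ ∃ f : E n → ℂ,
      (∀ z ∈ ball (M.ch x x) r, ContDiffAt ℝ ∞ f z ∧ ∀ i, dzb i f z = σ (M.ch x) z i) ∧
      Lo (pN l) (ball (M.ch x x) r) fun a z => -G a ((M.ch x).symm z) - f z := fun x => by
    have he := Mf.ch_mem x
    obtain ⟨R, hR, hs⟩ := Metric.isOpen_iff.1 (M.ch x).open_target _ (Mf.ch_tgt x)
    obtain ⟨r, hr, h1, ψ, hψ⟩ := dolb (a := fun i w => σ (M.ch x) w i) hR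
      (fun i z hz => contDiffAt_pi.1 (hσ.sm _ he z (hs hz)) i) fun z hz => hc _ he z (hs hz)
    have hs' := (ball_subset_ball h1).trans hs
    obtain ⟨P, h4, h3⟩ := limh l (Q := fun a z => ψ z + (G a ∘ (M.ch x).symm) z) isOpen_ball
      (fun a z hz => (hψ z hz).1.add (hG a _ he z (hs' hz)))
      ((bd_const fun z hz => (hψ z hz).1.continuousAt).add idB ((hb _ he).sub hs')
        (fun _ z hz => (hψ z hz).1.continuousAt) fun a z _ => norm_add_le _ _)
      fun j => ((h0 _ he j).sub hs').le (idN _) fun a z hz => by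
        rw [dzb_add (cd_diff (hψ z hz).1) (cd_diff (hG a _ he z (hs' hz))), (hψ z hz).2]
    refine ⟨r, hr, hs', fun z => ψ z - P z, fun z hz => ⟨(hψ z hz).1.sub (BHOL.smooth (h4 z hz)),
      fun i => ?_⟩, h3.le (idN _) fun a z _ => le_of_eq ?_⟩
    · rw [dzb_sub (cd_diff (hψ z hz).1) (cd_diff (BHOL.smooth (h4 z hz))), (hψ z hz).2,
        BHOL.dzb_zero (h4 z hz).self_of_nhds, sub_zero]
    · rw [← norm_neg]
      exact congrArg _ (by simp only [Function.comp_apply]; ring)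
  choose r hr hs f hf hl using loc
  have key : ∀ x, (fun y => f y (M.ch y y)) ∘ (M.ch x).symm =ᶠ[𝓝 (M.ch x x)] f x := fun x => by
    filter_upwards [ball_mem_nhds _ (hr x)] with z hz
    set y := (M.ch x).symm z with hy
    have ho := (ov_open (e := M.ch y) (e' := M.ch x) (isOpen_ball (x := M.ch y y) (ε := r y))).inter
      (isOpen_ball (x := M.ch x x) (ε := r x))
    exact (uniq (Q := fun a w => -G a ((M.ch x).symm w)) (P := f x)
      (P' := fun w => f y (M.ch y ((M.ch x).symm w))) ho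
      (fun a w hw => (hG a _ (Mf.ch_mem x) w hw.1.1).continuousAt.neg)
      (fun w hw => (hf x w hw.2).1.continuousAt)
      (fun w hw => ContinuousAt.comp (f := M.ch y ∘ (M.ch x).symm) (hf y _ hw.1.2.2).1.continuousAt
        (ov_hol (Mf.ch_mem y) (Mf.ch_mem x) hw.1).self_of_nhds.continuousAt)
      ((hl x).sub inter_subset_right)
      ((((hl y).chg (idN _) hH (Mf.ch_mem y) (Mf.ch_mem x)).sub inter_subset_left).le (idN _)
        fun a w hw => by rw [(M.ch y).left_inv hw.1.2.1]) z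
      ⟨⟨hs x hz, Mf.mem_ch y, mem_ball_self (hr y)⟩, hz⟩).symm
  have sF : M.Sm fun y => f y (M.ch y y) := ((mTR n M).2.2.2.1 ℂ _).2.2 fun x =>
    ⟨_, Mf.ch_mem x, Mf.mem_ch x, (hf x _ (mem_ball_self (hr x))).1.congr_of_eventuallyEq (key x)⟩
  refine ⟨_, sF, fun e he z hz => congrFun (hσ.ext (co_db sF) (fun x => funext fun i => ?_)
    e he z hz)⟩
  exact ((dzb_congr (key x)).trans ((hf x _ (mem_ball_self (hr x))).2 i)).symm

end Pool.Agent.Lib.VF72
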