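import Pool.Agent.Lib.VF72.Dich
import Pool.Agent.Lib.SV.Hol85
import Pool.Agent.Lib.HS.B_BRIDGE

/-! Holomorphic actions of the complex line. -/

open scoped Classical Topology ContDiff ENNReal ComplexOrder Matrix
open Set MeasureTheory Complex Metric Filter

noncomputable section

namespace Pool.Agent.Lib.VF72

open Pool.Agent.Lib.SV (E)
open Pool.Agent.Lib.HS32

variable {n : ℕ}

section gen

variable {F : Type} [NormedAddCommGroup F] [NormedSpace ℂ F] {f g : F → ℂ} {p v : F}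

/-- The Wirtinger derivative along a vector. -/
def dw (v : F) (f : F → ℂ) (p : F) : ℂ := (fderiv ℝ f p v - I * fderiv ℝ f p (I • v)) / 2

theorem dw_congr (e : f =ᶠ[𝓝 p] g) : dw v f p = dw v g p := by simp only [dw, e.fderiv_eq]

theorem dw_mul (hf : DifferentiableAt ℝ f p) (hg : DifferentiableAt ℝ g p) :
    dw v (fun q => f q * g q) p = dw v f p * g p + f p * dw v g p := by
  simp only [dw, fderiv_fun_mul hf hg, add_apply, smul_apply, smul_eq_mul]; ring

theorem dw_sum {f : Fin n → F → ℂ} (hf : ∀ a, DifferentiableAt ℝ (f a) p) :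
    dw v (fun q => ∑ a, f a q) p = ∑ a, dw v (f a) p := by
  simp only [dw, fderiv_fun_sum fun a _ => hf a, sum_apply, Finset.mul_sum,
    ← Finset.sum_sub_distrib, Finset.sum_div]

theorem dw_hol {L : F →L[ℂ] ℂ} (h : HasFDerivAt f L p) :
    dw v f p = L v ∧ dw v (fun q => star (f q)) p = 0 := by
  have h1 := h.restrictScalars ℝ
  have h2 := ((conjCLE : ℂ →L[ℝ] ℂ).hasFDerivAt.comp p h1).fderiv
  rw [dw, dw, h1.fderiv, show fderiv ℝ (fun q => star (f q)) p = _ from h2]
  simp only [ContinuousLinearMap.coe_restrictScalars', map_smul, smul_eq_mul,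
    ContinuousLinearMap.comp_apply, ContinuousLinearEquiv.coe_coe, conjCLE_apply, map_mul, conj_I]
  constructor
  · linear_combination (-L v / 2) * I_mul_I
  · linear_combination ((starRingEnd ℂ) (L v) / 2) * I_mul_I

theorem dw_comp {G : Type} [NormedAddCommGroup G] [NormedSpace ℂ G] {Γ : G → F} {q w : G}
    {L : G →L[ℂ] F} (h : HasFDerivAt Γ L q) (hf : DifferentiableAt ℝ f (Γ q)) :
    dw w (fun x => f (Γ x)) q = dw (L w) f (Γ q) := by
  have h1 := (hf.hasFDerivAt.comp q (h.restrictScalars ℝ)).fderiv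
  rw [dw, dw, show fderiv ℝ (fun x => f (Γ x)) q = _ from h1]
  simp

theorem dw_single {f : E n → ℂ} (z : E n) (j : Fin n) : dw (Pi.single j 1) f z = dz j f z := by
  rw [dw, dz, ← Pi.single_smul, smul_eq_mul, mul_one]

/-- The pull-back of a form. -/
def pq (Γ : F → E n) (S : E n → Mat n) (u v : F) (q : F) : ℂ :=
  star (fderiv ℂ Γ q u) ⬝ᵥ S (Γ q) *ᵥ fderiv ℂ Γ q v

theorem pq_cd {Γ : F → E n} (hΓ : ContDiffAt ℂ ∞ Γ p) {S : E n → Mat n} (hS : SmM S (Γ p))
    (u v : F) : ContDiffAt ℝ ∞ (pq Γ S u v) p := by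
  have d : ∀ u i, ContDiffAt ℝ ∞ (fun q => fderiv ℂ Γ q u i) p := fun u => contDiffAt_pi.1
    (((hΓ.fderiv_right (m := ∞) (by simp)).clm_apply contDiffAt_const).restrict_scalars ℝ)
  exact ContDiffAt.sum (s := Finset.univ) fun i _ => ((conjCLE : ℂ →L[ℝ] ℂ).contDiff.contDiffAt.comp p (d u i)).mul
    (ContDiffAt.sum (s := Finset.univ) fun j _ => ((hS i j).comp p (hΓ.restrict_scalars ℝ)).mul (d v j))

theorem pq_cl {Γ : F → E n} (hΓ : ContDiffAt ℂ ∞ Γ p) {S : E n → Mat n} (hS : SmM S (Γ p))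
    (hc : ClM S (Γ p)) (u v w : F) : dw w (pq Γ S u v) p = dw v (pq Γ S u w) p := by
  have h1 := (hΓ.differentiableAt (by simp)).hasFDerivAt
  have h2 := ((hΓ.fderiv_right (m := ∞) (by simp)).differentiableAt (by simp)).hasFDerivAt
  have d : ∀ u i, HasFDerivAt (fun q => fderiv ℂ Γ q u i) _ p := fun u =>
    hasFDerivAt_pi'.1 (h2.clm_apply (hasFDerivAt_const u p))
  have r := fun u i => ((d u i).restrictScalars ℝ).differentiableAt
  have s : ∀ u i, DifferentiableAt ℝ (fun q => star (fderiv ℂ Γ q u i)) p := fun u i =>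
    (conjCLE : ℂ →L[ℝ] ℂ).differentiableAt.comp p (r u i)
  have c : ∀ i j, DifferentiableAt ℝ (fun q => S (Γ q) i j) p := fun i j =>
    (hS.diff i j).comp p (h1.restrictScalars ℝ).differentiableAt
  have key : ∀ v w, dw w (pq Γ S u v) p = star (fderiv ℂ Γ p u) ⬝ᵥ
      (HS.del (fderiv ℂ Γ p w) S (Γ p) *ᵥ fderiv ℂ Γ p v +
        S (Γ p) *ᵥ fderiv ℂ (fderiv ℂ Γ) p w v) := fun v w => by
    have m := fun i j => (c i j).fun_mul (r v j)
    refine (dw_sum fun i => (s u i).fun_mul (.fun_sum fun j _ => m i j)).trans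
      (Finset.sum_congr rfl fun i _ => ?_)
    refine (dw_mul (s u i) (.fun_sum fun j _ => m i j)).trans ?_
    rw [(dw_hol (d u i)).2, zero_mul, zero_add, dw_sum (m i)]
    refine congrArg _ ((Finset.sum_congr rfl fun j _ => ?_).trans Finset.sum_add_distrib)
    rw [dw_mul (c i j) (r v j), (dw_hol (d v j)).1]
    refine congrArg₂ (· + ·) (congrArg (· * _) (dw_comp h1 (hS.diff i j))) ?_
    simp
  rw [key, key, ((contDiffAt_infty.1 hΓ 2).isSymmSndFDerivAt (by simp)).eq w v, HS.BBR.del_eq, HS.BBR.del_eq]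
  congr 2
  funext i
  simp only [Matrix.mulVec, dotProduct, Matrix.sum_apply, Matrix.smul_apply, smul_eq_mul,
    Finset.sum_mul]
  rw [Finset.sum_comm]
  refine Finset.sum_congr rfl fun j _ => Finset.sum_congr rfl fun k _ => ?_
  rw [hc i j k]
  ring

end gen

/-- A holomorphic action of the complex line. -/
structure Act (M : Mf n) where
  g : ℂ → M.X ≃ₜ M.X
  zero : ∀ x, g 0 x = x
  add : ∀ s t x, g (s + t) x = g s (g t x)
  cont : Continuous fun p : ℂ × M.X => g p.1 p.2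
  mem : ∀ t, ∀ e ∈ M.C, (g t).symm.transOpenPartialHomeomorph e ∈ M.C
  hol : ∀ e ∈ M.C, ∀ e' ∈ M.C, ∀ t, ∀ z ∈ e.target, g t (e.symm z) ∈ e'.source →
    DifferentiableAt ℂ (fun p : ℂ × E n => e' (g p.1 (e.symm p.2))) (t, z)

namespace Act

variable {M : Mf n} (A : Act M) {e e' : M.Ch} {S T : M.Fam (Mat n)} {p : ℂ × E n} {z : E n}

/-- The translate of a chart. -/
def sh (t : ℂ) (e : M.Ch) : M.Ch := (A.g t).symm.transOpenPartialHomeomorph e

/-- The action in two charts. -/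
def G (e e' : M.Ch) (p : ℂ × E n) : E n := e' (A.g p.1 (e.symm p.2))

/-- The domain of the action in two charts. -/
structure Ad (e e' : M.Ch) (p : ℂ × E n) : Prop where
  he : e ∈ M.C
  he' : e' ∈ M.C
  tg : p.2 ∈ e.target
  sr : A.g p.1 (e.symm p.2) ∈ e'.source

/-- The generator of the action. -/
def V : M.Fam (E n) := fun e z => deriv (fun s => A.G e e (s, z)) 0

variable {A}

theorem sh_mem (t : ℂ) (he : e ∈ M.C) : A.sh t e ∈ M.C := A.mem t e he

theorem ad (he : e ∈ M.C) (hz : p.2 ∈ e.target) : A.Ad e (M.ch (A.g p.1 (e.symm p.2))) p :=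
  ⟨he, Mf.ch_mem _, hz, Mf.mem_ch _⟩

theorem ad0 (he : e ∈ M.C) (he' : e' ∈ M.C) (hz : z ∈ e.target) (h : e.symm z ∈ e'.source) :
    A.Ad e e' (0, z) := ⟨he, he', hz, by rwa [A.zero]⟩

theorem Ad.ev (h : A.Ad e e' p) : ∀ᶠ q in 𝓝 p, A.Ad e e' q := by
  have c : ContinuousAt (fun q : ℂ × E n => A.g q.1 (e.symm q.2)) p :=
    A.cont.continuousAt.comp (f := fun q : ℂ × E n => (q.1, e.symm q.2)) (continuousAt_fst.prodMk
      ((e.continuousAt_symm h.tg).comp continuousAt_snd))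
  filter_upwards [c.eventually (e'.open_source.mem_nhds h.sr),
    continuousAt_snd.eventually (e.open_target.mem_nhds h.tg)] with q h1 h2
  exact ⟨h.he, h.he', h2, h1⟩

theorem Ad.cd (h : A.Ad e e' p) : ContDiffAt ℂ ∞ (A.G e e') p := by
  obtain ⟨O, h1, hO, hp⟩ := _root_.eventually_nhds_iff.1 h.ev
  exact (SV.H85.contDiffOn_top hO fun q hq => (A.hol e h.he e' h.he' q.1 q.2 (h1 q hq).tg
    (h1 q hq).sr).differentiableWithinAt).contDiffAt (hO.mem_nhds hp)

theorem Ad.fd (h : A.Ad e e' p) : HasFDerivAt (A.G e e') (fderiv ℂ (A.G e e') p) p :=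
  (h.cd.differentiableAt (by simp)).hasFDerivAt

theorem Ad.dt (h : A.Ad e e' p) :
    HasDerivAt (fun s => A.G e e' (s, p.2)) (fderiv ℂ (A.G e e') p (1, 0)) p.1 :=
  HasFDerivAt.comp_hasDerivAt (f := fun s => (s, p.2)) p.1 h.fd
    ((hasDerivAt_id p.1).prodMk (hasDerivAt_const p.1 p.2))

theorem Ad.src (h : A.Ad e e' p) : A.g p.1 (e.symm p.2) ∈ (A.sh p.1 e).source ∧
    A.sh p.1 e (A.g p.1 (e.symm p.2)) = p.2 :=
  ⟨(A.sh p.1 e).map_target h.tg, (A.sh p.1 e).right_inv h.tg⟩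

theorem Ad.jac (h : A.Ad e e' p) (v : E n) : fderiv ℂ (A.G e e') p (0, v) =
    M.J e' (A.sh p.1 e) (A.g p.1 (e.symm p.2)) *ᵥ v := by
  have h1 := ((mTR n M).2.1 e' h.he' _ (sh_mem p.1 h.he) _ h.sr h.src.1).1
  have h2 := (HasFDerivAt.comp (f := fun w => (p.1, w)) p.2 h.fd
    (hasFDerivAt_prodMk_right p.1 p.2)).fderiv
  rw [Mf.J, ← (mCHN n _ _ h1).2.2.2.2.2.1, h.src.2]
  exact (congrArg (fun L => L v) h2).symm

theorem Ad.gen (h : A.Ad e e' p) :
    fderiv ℂ (A.G e e') p (1, 0) = fderiv ℂ (A.G e e') p (0, A.V e p.2) := by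
  have h0 : A.Ad e e (0, p.2) := ad0 h.he h.he h.tg (e.map_target h.tg)
  have e0 : A.G e e (0, p.2) = p.2 := by rw [G, A.zero, e.right_inv h.tg]
  have h1 := HasFDerivAt.comp_hasDerivAt_of_eq (f := fun s => (p.1, A.G e e (s, p.2))) 0 h.fd
    ((hasDerivAt_const 0 p.1).prodMk h0.dt) (by rw [e0])
  have h2 := HasDerivAt.comp_const_add p.1 0 (f := fun s => A.G e e' (s, p.2))
    (by rw [add_zero]; exact h.dt)
  rw [V, h0.dt.deriv]
  refine (h2.congr_of_eventuallyEq ?_).unique h1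
  filter_upwards [(Continuous.prodMk_left p.2).continuousAt.eventually h0.ev] with s hs
  simp only [G, Function.comp_apply, e.left_inv hs.sr, A.add]

theorem V_ev (he : e ∈ M.C) (hz : z ∈ e.target) :
    A.V e =ᶠ[𝓝 z] fun w => fderiv ℂ (A.G e e) (0, w) (1, 0) := by
  filter_upwards [e.open_target.mem_nhds hz] with w hw
  exact (ad0 he he hw (e.map_target hw)).dt.deriv

theorem V_cd (he : e ∈ M.C) (hz : z ∈ e.target) : ContDiffAt ℂ ∞ (A.V e) z :=
  (ContDiffAt.comp (f := fun w => ((0 : ℂ), w)) z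
    ((((ad0 he he hz (e.map_target hz)).cd.fderiv_right (m := ∞) (by simp))).clm_apply
      contDiffAt_const) (contDiffAt_const.prodMk contDiffAt_id)).congr_of_eventuallyEq (V_ev he hz)

theorem hol_V : M.All fun e z => ∀ i, HolN (fun w => A.V e w i) z := fun e he _ hz i =>
  (e.open_target.eventually_mem hz).mono fun _ hw =>
    (contDiffAt_pi.1 (V_cd he hw) i).differentiableAt (by simp)

theorem db_V : M.All fun e z => ∀ i j, dzb j (fun w => A.V e w i) z = 0 := fun e he z hz i j =>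
  BHOL.dzb_zero (hol_V e he z hz i).self_of_nhds j

theorem vec_V : M.Vec A.V := by
  refine ⟨fun e he z hz => (V_cd he hz).restrict_scalars ℝ, fun e he e' he' x hx hx' => ?_⟩
  have h := ad0 (A := A) he' he (e'.map_source hx') (by rwa [e'.left_inv hx'])
  have h1 := h.jac (A.V e' (e' x))
  rw [← h.gen, ← h.dt.deriv, Mf.J, h.src.2, show ⇑e ∘ (A.sh 0 e').symm = e ∘ e'.symm from
    funext fun w => congrArg e (A.zero _)] at h1
  refine h1.symm.trans ?_
  simp only [V, G, e.left_inv hx, e'.left_inv hx']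

theorem V_ne (h : ∀ x, ∃ t, A.g t x ≠ x) : M.All fun e z => A.V e z ≠ 0 := fun e he z hz h0 => by
  obtain ⟨t, ht⟩ := h (e.symm z)
  refine ht (((IsLocallyConstant.iff_eventually_eq fun s => A.g s (e.symm z)).2
    fun s => ?_).apply_eq_of_preconnectedSpace t 0 |>.trans (A.zero _))
  have h1 := ad (A := A) (p := (s, z)) he hz
  obtain ⟨r, hr, hb⟩ := Metric.eventually_nhds_iff_ball.1
    ((Continuous.prodMk_left z).continuousAt.eventually h1.ev)
  filter_upwards [ball_mem_nhds s hr] with u hu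
  refine OpenPartialHomeomorph.injOn _ (hb u hu).sr h1.sr (isOpen_ball.is_const_of_deriv_eq_zero
    (f := fun a => A.G e _ (a, z)) (convex_ball s r).isPreconnected
    (fun a ha => (hb a ha).dt.differentiableAt.differentiableWithinAt)
    (fun a ha => ?_) hu (mem_ball_self hr))
  rw [(hb a ha).dt.deriv, (hb a ha).gen, h0]
  exact map_zero _

theorem Ad.rep (h : A.Ad e e' p) (hS : M.Ten S) (u v : E n) :
    star u ⬝ᵥ S (A.sh p.1 e) p.2 *ᵥ v = pq (A.G e e') (S e') (0, u) (0, v) p := by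
  have h1 := hS.cmp e' h.he' _ (sh_mem p.1 h.he) _ h.sr h.src.1
  beta_reduce at h1
  rw [h.src.2] at h1
  rw [pq, h.jac, h.jac, h1, Matrix.star_mulVec, ← Matrix.dotProduct_mulVec]
  simp only [Matrix.mulVec_mulVec, Matrix.mul_assoc, G]

theorem ent (B : Mat n) (v : E n) (i : Fin n) : star (Pi.single i 1) ⬝ᵥ B *ᵥ v = (B *ᵥ v) i := by
  rw [← Pi.single_star, star_one, single_one_dotProduct]

theorem Ad.ent (h : A.Ad e e' p) (hS : M.Ten S) (i j : Fin n) :
    (fun q : ℂ × E n => S (A.sh q.1 e) q.2 i j) =ᶠ[𝓝 p]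
      pq (A.G e e') (S e') (0, Pi.single i 1) (0, Pi.single j 1) :=
  h.ev.mono fun q hq => by
    rw [← hq.rep hS, Act.ent, Matrix.mulVec_single_one]
    rfl

theorem jt (hS : M.Ten S) (he : e ∈ M.C) (i j : Fin n) :
    Jt e.target fun t z => S (A.sh t e) z i j := fun t z hz =>
  have h := ad (A := A) (p := (t, z)) he hz
  (pq_cd h.cd (hS.sm _ h.he' _ (OpenPartialHomeomorph.map_source _ h.sr)) _
    _).congr_of_eventuallyEq (h.ent hS i j)

theorem jtV (hS : M.Ten S) (he : e ∈ M.C) (i : Fin n) :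
    Jt e.target fun t z => (S (A.sh t e) z *ᵥ A.V e z) i :=
  Jt.sum fun j => (jt hS he i j).mul
    (jt_const fun z hz => contDiffAt_pi.1 (vec_V.sm e he z hz) j)

theorem jtf {f : M.X → ℂ} (hf : M.Sm f) (he : e ∈ M.C) :
    Jt e.target fun t z => f (A.g t (e.symm z)) := fun t z hz => by
  have h := ad (A := A) (p := (t, z)) he hz
  refine (ContDiffAt.comp (t, z) (hf _ h.he' _ (OpenPartialHomeomorph.map_source _ h.sr))
    (h.cd.restrict_scalars ℝ)).congr_of_eventuallyEq (h.ev.mono fun q hq => ?_)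
  simp only [Function.comp_apply, G, OpenPartialHomeomorph.left_inv _ hq.sr]

/-- The derivative of a closed form along the flow. -/
theorem lie (hS : M.Clo S) (he : e ∈ M.C) (hz : z ∈ e.target) (t : ℂ) (i j : Fin n) :
    dw 1 (fun s => S (A.sh s e) z i j) t =
      dz j (fun w => (S (A.sh t e) w *ᵥ A.V e w) i) z := by
  have h := ad (A := A) (p := (t, z)) he hz
  have hm := OpenPartialHomeomorph.map_source _ h.sr
  have h1 := dw_comp (w := 1) (hasFDerivAt_prodMk_left (𝕜 := ℂ) t z)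
    ((jt (A := A) hS.toTen he i j t z hz).differentiableAt (by simp))
  have h2 := dw_comp (w := Pi.single j 1) (hasFDerivAt_prodMk_right (𝕜 := ℂ) t z)
    ((jtV (A := A) hS.toTen he i t z hz).differentiableAt (by simp))
  rw [← dw_single]
  refine h1.trans (Eq.trans ?_ h2.symm)
  rw [dw_congr (h.ent hS.toTen i j), pq_cl h.cd (hS.sm _ h.he' _ hm) (hS.cl _ h.he' _ hm)]
  refine dw_congr (h.ev.mono fun q hq => ?_)
  beta_reduce
  rw [← Act.ent, hq.rep hS.toTen, pq, pq, ← hq.gen]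
  rfl

end Act

end Pool.Agent.Lib.VF72
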