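import Pool.Agent.Lib.VF72.Act

/-! Averages of forms along the flow. -/

open scoped Classical Topology ContDiff ENNReal ComplexOrder Matrix
open Set MeasureTheory Complex Metric Filter

noncomputable section

namespace Pool.Agent.Lib.VF72

open Pool.Agent.Lib.SV (E)
open Pool.Agent.Lib.HS32 Pool.Agent.Lib.MP_9cdd18_an.CX

variable {n : ℕ} {w w' Ψ : ℂ → ℂ}

theorem Wg.mul (hw : Wg w) (h : Continuous Ψ) : Wg fun t => w t * Ψ t :=
  ⟨(integrableOn_iff_integrable_of_support_subset
    ((Function.support_mul_subset_left _ _).trans (subset_tsupport w))).1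
      (hw.int.integrableOn.mul_continuousOn h.continuousOn hw.cpt), hw.cpt.mul_right⟩

/-- A smooth weight with compact support. -/
structure Sw (w : ℂ → ℂ) : Prop where
  sm : ContDiff ℝ ∞ w
  cpt : HasCompactSupport w

theorem Sw.wg (h : Sw w) : Wg w := wg_of h.sm.continuous h.cpt

theorem cd_dir (h : ContDiff ℝ ∞ Ψ) (v : ℂ) : ContDiff ℝ ∞ fun t => fderiv ℝ Ψ t v :=
  (h.fderiv_right (m := ∞) (by simp)).clm_apply contDiff_const

theorem cd_dw (h : ContDiff ℝ ∞ Ψ) : ContDiff ℝ ∞ (dw 1 Ψ) :=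
  ((cd_dir h _).sub (contDiff_const.mul (cd_dir h _))).div_const _

theorem Sw.dir (h : Sw w) (v : ℂ) : Sw fun t => fderiv ℝ w t v :=
  ⟨cd_dir h.sm v, h.cpt.fderiv_apply ℝ v⟩

theorem Sw.dw (h : Sw w) : Sw (dw 1 w) :=
  ⟨cd_dw h.sm, (h.cpt.fderiv ℝ).comp_left (g := fun L : ℂ →L[ℝ] ℂ => (L 1 - I * L (I • 1)) / 2)
    (by simp)⟩

theorem ibp1 (hw : Sw w) (h : ContDiff ℝ ∞ Ψ) :
    ∫ t, w t * dw 1 Ψ t = -∫ t, dw 1 w t * Ψ t := by
  have i1 := fun v => ((hw.dir v).wg.mul h.continuous).int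
  have i2 := fun v => (hw.wg.mul (cd_dir h v).continuous).int
  have k := fun v => integral_mul_fderiv_eq_neg_fderiv_mul_of_integrable (i1 v) (i2 v)
    (hw.wg.mul h.continuous).int (fun x _ => hw.sm.differentiable (by simp) x)
    fun x _ => h.differentiable (by simp) x
  have e : ∀ a b : ℂ → ℂ, Integrable a → Integrable b →
      ∫ t, (a t - I * b t) / 2 = ((∫ t, a t) - I * ∫ t, b t) / 2 := fun a b ha hb => by
    rw [integral_div, integral_sub ha (hb.const_mul _), integral_const_mul]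
  rw [show (fun t => w t * dw 1 Ψ t) = fun t => (w t * fderiv ℝ Ψ t 1 -
      I * (w t * fderiv ℝ Ψ t (I • 1))) / 2 from funext fun t => by rw [dw]; ring,
    show (fun t => dw 1 w t * Ψ t) = fun t => (fderiv ℝ w t 1 * Ψ t -
      I * (fderiv ℝ w t (I • 1) * Ψ t)) / 2 from funext fun t => by rw [dw]; ring,
    e _ _ (i2 _) (i2 _), e _ _ (i1 _) (i1 _), k, k]
  ring

theorem Sw.inv (hw : Sw w) : Wg fun t => (star t)⁻¹ * w t := by
  obtain ⟨R, hR⟩ := hw.cpt.isCompact.isBounded.subset_closedBall 0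
  convert (wg_kw R).conj.mul hw.sm.continuous using 2 with t
  by_cases ht : t ∈ closedBall (0 : ℂ) R
  · rw [kw, indicator_of_mem ht, star_inv₀]
  · rw [image_eq_zero_of_notMem_tsupport fun h : t ∈ tsupport w => ht (hR h), mul_zero, mul_zero]

theorem pomp2 (hw : Sw w) (h : ContDiff ℝ ∞ Ψ) : -Real.pi * (w 0 * Ψ 0) =
    (∫ t, (star t)⁻¹ * dw 1 w t * Ψ t) + ∫ t, (star t)⁻¹ * w t * dw 1 Ψ t := by
  have s : Sw fun t => w t * Ψ t := ⟨hw.sm.mul h, hw.cpt.mul_right⟩
  have c := (conjCLE : ℂ →L[ℝ] ℂ).contDiff.comp s.sm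
  have k := congrArg star (pompeiu_aux (c.of_le (m := 1) (by simp))
    (s.cpt.comp_left (map_zero _)) 0)
  rw [← integral_add (hw.dw.inv.mul h.continuous).int (hw.inv.mul (cd_dw h).continuous).int]
  rw [show star (∫ ζ, _) = _ from (integral_conj (𝕜 := ℂ)).symm] at k
  simp only [Function.comp_apply, ContinuousLinearEquiv.coe_coe, conjCLE_apply, star_mul', star_neg,
    star_def, conj_conj, conj_ofReal, map_ofNat] at k
  rw [integral_congr_ae (g := fun t => 2 * ((star t)⁻¹ * dw 1 w t * Ψ t +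
    (star t)⁻¹ * w t * dw 1 Ψ t)) (.of_forall fun t => ?_), integral_const_mul] at k
  · linear_combination -k / 2
  have d := dw_mul (v := 1) (hw.sm.differentiable (by simp) t) (h.differentiable (by simp) t)
  have f : fderiv ℝ (conjCLE ∘ fun t => w t * Ψ t) t = _ := ((conjCLE : ℂ →L[ℝ] ℂ).hasFDerivAt.comp t
    (s.sm.differentiable (by simp) t).hasFDerivAt).fderiv
  rw [dw] at d
  simp only [dbar, f, ContinuousLinearMap.comp_apply, ContinuousLinearEquiv.coe_coe, conjCLE_apply,
    map_div₀, map_add, map_mul, conj_conj, conj_I, sub_zero, smul_eq_mul, mul_one, star_def] at d ⊢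
  linear_combination (2 * ((starRingEnd ℂ) t)⁻¹) * d

namespace Act

variable {M : Mf n} {A : Act M} {e e' : M.Ch} {S T : M.Fam (Mat n)} {z : E n}

variable (A) in
/-- The average of the translates of a form. -/
def av (w : ℂ → ℂ) (S : M.Fam (Mat n)) : M.Fam (Mat n) :=
  fun e z => Matrix.of fun i j => ∫ t, w t * S (A.sh t e) z i j

theorem av_q (hS : M.Ten S) (hw : Wg w) (he : e ∈ M.C) (hz : z ∈ e.target) (u v : E n) :
    u ⬝ᵥ A.av w S e z *ᵥ v = ∫ t, w t * (u ⬝ᵥ S (A.sh t e) z *ᵥ v) := by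
  have i := fun i j => (((jt (A := A) hS he i j).intg hw hz).mul_const (v j)).const_mul (u i)
  simp only [dotProduct, Matrix.mulVec, av, Matrix.of_apply, Finset.mul_sum, ← integral_mul_const,
    ← integral_const_mul]
  rw [Finset.sum_congr rfl fun a _ => (integral_finsetSum _ fun j _ => i a j).symm,
    ← integral_finsetSum _ fun a _ => integrable_finsetSum _ fun j _ => i a j]
  refine integral_congr_ae (.of_forall fun t => Finset.sum_congr rfl fun a _ =>
    Finset.sum_congr rfl fun j _ => ?_)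
  ring

theorem av_ten (hS : M.Ten S) (hw : Wg w) : M.Ten (A.av w S) := by
  refine ⟨fun e he z hz i j => (jt hS he i j).sm hw e.open_target hz,
    fun e he e' he' x hx hx' => Matrix.ext fun i j => ?_⟩
  have c : ∀ (t : ℂ) (e : M.Ch), A.sh t e (A.g t x) = e x := fun t e =>
    congrArg e ((A.g t).symm_apply_apply x)
  have m : ∀ (t : ℂ) (e : M.Ch), x ∈ e.source → A.g t x ∈ (A.sh t e).source := fun t e h =>
    show (A.g t).symm (A.g t x) ∈ e.source by rwa [Homeomorph.symm_apply_apply]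
  rw [Matrix.mul_assoc]
  refine Eq.trans (integral_congr_ae (.of_forall fun t => ?_)) (av_q hS hw he (e.map_source hx)
    ((M.J e e' x)ᴴ i) fun b => M.J e e' x b j).symm
  have h := hS.cmp _ (sh_mem (A := A) t he) _ (sh_mem t he') _ (m t e hx) (m t e' hx')
  beta_reduce at h ⊢
  rw [c, c, Mf.J, c, show ⇑(A.sh t e) ∘ (A.sh t e').symm = e ∘ e'.symm from
    funext fun y => congrArg e ((A.g t).symm_apply_apply _), Matrix.mul_assoc] at h
  rw [h]
  rfl

theorem av_ct (hS : M.Form S) : M.All fun e z =>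
    (A.av w S e z)ᴴ = A.av (fun t => star (w t)) S e z := fun e he z hz => by
  ext i j
  refine (integral_conj (𝕜 := ℂ)).symm.trans (integral_congr_ae (.of_forall fun t => ?_))
  beta_reduce
  rw [map_mul, ← (hS.herm _ (sh_mem (A := A) t he) z hz).apply i j]
  rfl

theorem av_form (hS : M.Form S) (hw : Wg w) (hr : ∀ t, star (w t) = w t) : M.Form (A.av w S) :=
  ⟨av_ten hS.toTen hw, fun e he z hz => (av_ct hS e he z hz).trans (by simp only [hr])⟩

theorem av_clo (hS : M.Clo S) (hw : Wg w) (hr : ∀ t, star (w t) = w t) : M.Clo (A.av w S) :=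
  ⟨av_form hS.toForm hw hr, fun e he z hz i j k =>
    ((jt hS.toTen he i j).dz_int hw e.open_target hz k).trans (Eq.trans
      (integral_congr_ae (.of_forall fun t => congrArg (w t * ·)
        (hS.cl _ (sh_mem t he) z hz i j k)))
      ((jt hS.toTen he i k).dz_int hw e.open_target hz j).symm)⟩

theorem av_pos (hS : M.Form S) (hw : Wg w) (hr : ∀ t, 0 ≤ w t) (h : M.Le 0 S) :
    M.Le 0 (A.av w S) := fun e he z hz => by
  simp only [Pi.zero_apply, sub_zero]
  refine .of_dotProduct_mulVec_nonneg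
    ((av_form hS hw fun t => (IsSelfAdjoint.of_nonneg (hr t)).star_eq).herm e he z hz) fun v => ?_
  rw [av_q hS.toTen hw he hz]
  refine integral_nonneg fun t => mul_nonneg (hr t) ?_
  simpa using (h _ (sh_mem (A := A) t he) z hz).dotProduct_mulVec_nonneg v

theorem av_add (hS : M.Ten S) (hT : M.Ten T) (hw : Wg w) (c : ℝ) : M.All fun e z =>
    A.av w (S + c • T) e z = A.av w S e z + c • A.av w T e z := fun e he z hz => by
  ext i j
  simp only [av, Matrix.of_apply, Matrix.add_apply, Matrix.smul_apply, Pi.add_apply, Pi.smul_apply,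
    real_smul, ← integral_const_mul]
  rw [← integral_add ((jt hS he i j).intg hw hz) (((jt hT he i j).intg hw hz).const_mul _)]
  exact integral_congr_ae (.of_forall fun t => by ring)

theorem av_dC (hS : M.Clo S) (hw : Wg w) (he : e ∈ M.C) (hz : z ∈ e.target) (i j : Fin n) :
    dC (fun y => A.av w S e y *ᵥ A.V e y) z i j =
      ∫ t, w t * dw 1 (fun s => S (A.sh s e) z i j) t := by
  simp only [lie hS he hz]
  rw [← (jtV hS.toTen he i).dz_int hw e.open_target hz j]
  refine dz_congr ((e.open_target.eventually_mem hz).mono fun y hy => ?_)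
  simp only [← ent]
  exact av_q hS.toTen hw he hy _ _

theorem av_lie (hS : M.Clo S) (hw : Sw w) : M.All fun e z =>
    dC (fun y => A.av w S e y *ᵥ A.V e y) z = -A.av (dw 1 w) S e z := fun e he z hz => by
  ext i j
  rw [av_dC hS hw.wg he hz, ibp1 hw ((jt hS.toTen he i j).left hz)]
  rfl

theorem av_hs {f : M.X → ℝ} (hf : M.Sm f) (hw : Wg w) (hr : ∀ t, star (w t) = w t) :
    ∃ u, M.Sm u ∧ M.All fun e z => A.av w (M.hs f) e z = M.hs u e z := by
  have J := fun e he => jtf (A := A) (e := e) hf.ofReal he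
  refine ⟨fun x => (∫ t, w t * f (A.g t x)).re,
    fun e he z hz => cd_re ((J e he).sm hw e.open_target hz), fun e he z hz => ?_⟩
  ext i j
  have e1 : M.lc (fun x => (∫ t, w t * f (A.g t x)).re) e =
      fun y => ∫ t, w t * f (A.g t (e.symm y)) := funext fun y => by
    refine conj_eq_iff_re.1 ((integral_conj (𝕜 := ℂ)).symm.trans
      (integral_congr_ae (.of_forall fun t => ?_)))
    beta_reduce
    rw [map_mul, conj_ofReal]
    exact congrArg (· * _) (hr t)
  rw [Mf.hs, e1, hess_apply, dzb_congr ((e.open_target.eventually_mem hz).mono fun y hy =>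
    (J e he).dz_int hw e.open_target hy j),
    ((J e he).dz e.open_target j).dzb_int hw e.open_target hz i]
  rfl

theorem av_ex (hS : M.Clo S) (hw : Sw w) (hr : ∀ t, star (w t) = w t) :
    ∃ u, M.Sm u ∧ M.All fun e z =>
      dC (fun y => A.av (fun t => star (dw 1 w t)) S e y *ᵥ A.V e y) z = -M.hs u e z := by
  have hB := av_form (A := A) hS.toForm hw.wg hr
  have hV := vec_V (A := A)
  have c := co_mul hB.toTen hV
  have iv := c.inv hV
  have s := fun e he z hz => cd_dot (hV.sm e he z hz) (c.sm e he z hz)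
  have su := (iv.sm s).re
  refine ⟨_, su, fun e he z hz => Matrix.ext fun i j => ?_⟩
  have r : ∀ y ∈ e.target, M.lc (fun x => (M.ev (fun e z => star (A.V e z) ⬝ᵥ
      A.av w S e z *ᵥ A.V e z) x).re) e y =
      star (star (A.V e y) ⬝ᵥ A.av w S e y *ᵥ A.V e y) := fun y hy => by
    have h := conj_eq_iff_im.2 ((hB.herm e he y hy).im_star_dotProduct_mulVec_self (A.V e y))
    rw [Mf.lc, iv.rep e he y hy]
    exact (conj_eq_iff_re.1 h).trans h.symm
  rw [Matrix.neg_apply, Mf.hs, hess_apply, ← dz_dzb (su.lc e he z hz), ← dz_neg]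
  refine dz_congr ((e.open_target.eventually_mem hz).mono fun y hy => ?_)
  beta_reduce
  rw [dzb_congr ((e.open_target.eventually_mem hy).mono r), dzb_star (cd_diff (s e he y hy)),
    dz_dot (hV.sm e he y hy) (c.sm e he y hy) (db_V e he y hy), av_lie hS hw e he y hy,
    ← av_ct hS.toForm e he y hy, Matrix.vecMul_neg, Pi.neg_apply, star_neg, neg_neg,
    ← Pi.star_apply (_ ᵥ* _), Matrix.star_vecMul, star_star]

theorem av_pomp (hS : M.Clo S) (hw : Sw w) (h0 : w 0 = 1) : M.All fun e z =>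
    -(Real.pi : ℂ) • S e z = A.av (fun t => (star t)⁻¹ * dw 1 w t) S e z +
      dC (fun y => A.av (fun t => (star t)⁻¹ * w t) S e y *ᵥ A.V e y) z := fun e he z hz => by
  ext i j
  have h := pomp2 hw ((jt (A := A) hS.toTen he i j).left hz)
  rw [h0, one_mul, show A.sh 0 e = e from OpenPartialHomeomorph.ext _ _
    (fun x => congrArg e ((A.g 0).symm_apply_eq.2 (A.zero x).symm)) (fun x => A.zero _)
    (Set.ext fun x => by
      show (A.g 0).symm x ∈ e.source ↔ _
      rw [(A.g 0).symm_apply_eq.2 (A.zero x).symm])] at h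
  rw [Matrix.add_apply, av_dC hS hw.inv he hz]
  exact h

theorem av_dom (hS : M.Form S) (h : M.Le 0 S) (hw' : Wg w') (hr : ∀ t, 0 ≤ w' t)
    {κ : ℝ} (hk : ∀ t, ‖w t‖ ≤ κ * ‖w' t‖) (he : e ∈ M.C) (hz : z ∈ e.target) (i j : Fin n) :
    ‖A.av w S e z i j‖ ≤ κ * (‖A.av w' S e z i i‖ + ‖A.av w' S e z j j‖) := by
  have p := fun t => h _ (sh_mem (A := A) t he) z hz
  simp only [Pi.zero_apply, sub_zero] at p
  have I := fun i => ((jt (A := A) hS.toTen he i i).intg hw' hz).norm
  have e1 : ∀ i, ‖A.av w' S e z i i‖ = ∫ t, ‖w' t * S (A.sh t e) z i i‖ := fun i => by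
    rw [← Real.norm_of_nonneg (integral_nonneg fun t => norm_nonneg _), ← norm_real,
      ← integral_complex_ofReal]
    exact congrArg _ (integral_congr_ae (.of_forall fun t =>
      (norm_of_nonneg' (mul_nonneg (hr t) (p t).diag_nonneg)).symm))
  rw [e1, e1, ← integral_add (I i) (I j), ← integral_const_mul]
  refine norm_integral_le_of_norm_le (((I i).add (I j)).const_mul κ) (.of_forall fun t => ?_)
  simp only [norm_mul, ← mul_add, ← mul_assoc]
  exact mul_le_mul (hk t) (psd_entry (p t) i j) (norm_nonneg _) ((norm_nonneg _).trans (hk t))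

end Act

end Pool.Agent.Lib.VF72
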