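import Pool.Agent.Lib.GH.SDefs

/-! Definitions used in the statement: closed real forms of type `(1,1)`, nef classes, the volume
measure, the generator of an action and closed holomorphic forms of degree one. -/

open scoped ContDiff Matrix
open MeasureTheory

noncomputable section

namespace Pool.Agent.Lib.VF72

open Pool.Agent.Lib.SV Pool.Agent.Lib.HS

variable {n : ℕ}

/-- The Levi form `∑ ∂²u / ∂z_j ∂(conj z_k) v_j conj v_k` of a real function at `z`. -/
def levi (u : E n → ℝ) (z v : E n) : ℝ :=
  (fderiv ℝ (fderiv ℝ u) z v v + fderiv ℝ (fderiv ℝ u) z (Complex.I • v) (Complex.I • v)) / 4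

variable {X : Type} [TopologicalSpace X] [ChartedSpace (E n) X]

/-- `β` is a smooth closed real form of type `(1,1)`. -/
structure ClosedForm (β : X → Mat n) : Prop where
  herm : ∀ x, (β x).IsHermitian
  smooth : ∀ x i j, ContDiffAt ℝ ∞ (fun z => inChart β x z i j) (chartAt (E n) x x)
  closed : ∀ x v w, del v (inChart β x) (chartAt (E n) x x) *ᵥ w =
    del w (inChart β x) (chartAt (E n) x x) *ᵥ v

/-- The class of `β` is nef: for every `ε > 0` there is a smooth real function `f` such that `β`
plus the Levi form of `f` is at least `-ε h`. -/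
def Nef (h β : X → Mat n) : Prop :=
  ∀ ε : ℝ, 0 < ε → ∃ f : X → ℝ, ∀ x,
    ContDiffAt ℝ ∞ (f ∘ (chartAt (E n) x).symm) (chartAt (E n) x x) ∧
    ∀ v, -(ε * (star v ⬝ᵥ h x *ᵥ v).re) ≤
      (star v ⬝ᵥ β x *ᵥ v).re + levi (f ∘ (chartAt (E n) x).symm) (chartAt (E n) x x) v

/-- The volume measure of `h`: the least measure above the measures with density `det h` of all
charts. -/
def vol [MeasurableSpace X] (h : X → Mat n) : Measure X :=
  ⨆ x : X, ((volume.restrict (chartAt (E n) x).target).withDensity
    fun z => ENNReal.ofReal (inChart h x z).det.re).map (chartAt (E n) x).symm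

variable (n) in
/-- The vector field that generates an action of the complex line, in the preferred chart. -/
def gen [AddAction ℂ X] (x : X) : E n := deriv (fun t : ℂ => chartAt (E n) x (t +ᵥ x)) 0

/-- The coefficients, at the point with coordinate `z` in the chart at `x`, of the form of degree
one whose coefficients at each `y` in the preferred chart of `y` are `φ y`. -/
def formIn (φ : X → E n) (x : X) (z : E n) : E n := φ ((chartAt (E n) x).symm z) ᵥ* jacM x z

/-- `φ` is a closed holomorphic form of degree one. -/
structure ClosedHol (φ : X → E n) : Prop where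
  hol : ∀ x, DifferentiableAt ℂ (formIn φ x) (chartAt (E n) x x)
  closed : ∀ x v w, fderiv ℂ (formIn φ x) (chartAt (E n) x x) v ⬝ᵥ w =
    fderiv ℂ (formIn φ x) (chartAt (E n) x x) w ⬝ᵥ v

end Pool.Agent.Lib.VF72
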