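import Pool.Agent.Lib.VF72.Main
import Pool.Agent.Lib.VF72.SDefs

/-! From the statement to the manifold layer and back. -/

open scoped Classical Topology ContDiff ComplexOrder Matrix Manifold
open Set MeasureTheory Complex Filter

noncomputable section

namespace Pool.Agent.Lib.VF72

open Pool.Agent.Lib.SV (E)
open Pool.Agent.Lib.HS32 Pool.Agent.Lib.GH Pool.Agent.Lib.HS.BBR

variable {n : ℕ} {X : Type} [TopologicalSpace X] [ChartedSpace (E n) X]

theorem act_hol [AddAction ℂ X]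
    (hol : MDifferentiable (𝓘(ℂ, ℂ).prod 𝓘(ℂ, E n)) 𝓘(ℂ, E n) fun p : ℂ × X => p.1 +ᵥ p.2)
    {e e' : OpenPartialHomeomorph X (E n)} (he : ∀ x, Cp (chartAt (E n) x) e)
    (he' : ∀ x, Cp e' (chartAt (E n) x)) (t : ℂ) {z : E n} (hz : z ∈ e.target)
    (h : t +ᵥ e.symm z ∈ e'.source) :
    DifferentiableAt ℂ (fun p : ℂ × E n => e' (p.1 +ᵥ e.symm p.2)) (t, z) := by
  have m1 := mem_chart_source (E n) (e.symm z)
  have m2 := mem_chart_source (E n) (t +ᵥ e.symm z)
  set c := chartAt (E n) (e.symm z)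
  set c' := chartAt (E n) (t +ᵥ e.symm z)
  have h1 : DifferentiableAt ℂ (fun p : ℂ × E n => c' (p.1 +ᵥ c.symm p.2)) (t, c (e.symm z)) :=
    (hol (t, e.symm z)).differentiableWithinAt_writtenInExtChartAt.differentiableAt (by
      simp)
  have h2 := DifferentiableAt.comp (f := fun p : ℂ × E n => (p.1, (c ∘ e.symm) p.2)) (t, z) h1
    (differentiableAt_fst.prodMk (DifferentiableAt.comp (f := Prod.snd) (t, z)
      ((he _).at hz m1) differentiableAt_snd))
  have h3 := (he' _).at (c'.map_source m2) (by rwa [c'.left_inv m2])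
  have k : ContinuousAt (fun p : ℂ × E n => e.symm p.2) (t, z) :=
    ContinuousAt.comp (f := Prod.snd) (e.continuousAt_symm hz) continuousAt_snd
  refine (DifferentiableAt.comp (t, z) (by simpa [c.left_inv m1] using h3)
    h2).congr_of_eventuallyEq ?_
  filter_upwards [k.eventually (c.open_source.mem_nhds m1), (hol.continuous.continuousAt.comp
    (continuousAt_fst.prodMk k)).eventually (c'.open_source.mem_nhds m2)] with p h4 h5
  exact congrArg e' (by simpa [c.left_inv h4] using (c'.left_inv h5).symm)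

variable [IsManifold 𝓘(ℂ, E n) ω X]

variable (n) in
/-- The preferred chart. -/
def cc (x : (mf n X).X) : (mf n X).Ch := chartAt (M := X) (E n) x

theorem cc_mem (x : (mf n X).X) : cc n x ∈ (mf n X).C :=
  fun y => ⟨cp_chart (X := X) x y, cp_chart (X := X) y x⟩

theorem cc_src (x : (mf n X).X) : x ∈ (cc n x).source := mem_chart_source (M := X) (E n) x

theorem cc_tgt (x : (mf n X).X) : cc n x x ∈ (cc n x).target := (cc n x).map_source (cc_src x)

theorem act [AddAction ℂ X]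
    (hol : MDifferentiable (𝓘(ℂ, ℂ).prod 𝓘(ℂ, E n)) 𝓘(ℂ, E n) fun p : ℂ × X => p.1 +ᵥ p.2) :
    ∃ A : Act (mf n X), ∀ t (x : X), A.g t x = t +ᵥ x := by
  have : ContinuousVAdd ℂ X := ⟨hol.continuous⟩
  refine ⟨⟨fun t => Homeomorph.vadd (α := X) t, zero_vadd ℂ (α := X), add_vadd (P := X),
    hol.continuous, fun t e he x => ⟨fun z hz => ?_, fun z hz => ?_⟩, fun e he e' he' t z hz =>
      act_hol hol (fun x => (he x).2) (fun x => (he' x).1) t hz⟩, fun _ _ => rfl⟩
  · exact (DifferentiableAt.comp (f := fun w => (-t, w)) z (act_hol hol (fun y => cp_chart y x)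
      (fun x => (he x).1) (-t) hz.1 hz.2) (by fun_prop)).differentiableWithinAt
  · exact (DifferentiableAt.comp (f := fun w => (t, w)) z (act_hol hol (fun x => (he x).2)
      (cp_chart x) t hz.1 hz.2) (by fun_prop)).differentiableWithinAt

/-- A form read in all charts. -/
def fam (h : X → Mat n) : (mf n X).Fam (Mat n) := fun e z =>
  (jm (cc n (e.symm z) ∘ e.symm) z)ᴴ * h (e.symm z) * jm (cc n (e.symm z) ∘ e.symm) z

theorem fam_eq (h : X → Mat n) {e : (mf n X).Ch} {x : (mf n X).X} (hx : x ∈ e.source) :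
    fam h e (e x) = ((mf n X).J (cc n x) e x)ᴴ * h x * (mf n X).J (cc n x) e x := by
  simp only [fam, e.left_inv hx, Mf.J]

theorem fam_at (h : X → Mat n) (x : (mf n X).X) : fam h (cc n x) (cc n x x) = h x := by
  rw [fam_eq h (cc_src x), (mTR n (mf n X)).2.2.1 _ (cc_mem x) x (cc_src x)]
  simp

theorem fam_ok {h : X → Mat n} (h1 : ∀ x, (h x).IsHermitian)
    (h2 : ∀ x i j, ContDiffAt ℝ ∞ (fun z => HS.inChart h x z i j) (chartAt (E n) x x)) :
    (mf n X).Form (fam h) ∧ ((∀ x, ClM (HS.inChart h x) (chartAt (E n) x x)) →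
      (mf n X).All fun e z => ClM (fam h e) z) := by
  obtain ⟨-, hov, -⟩ := mTR n (mf n X)
  have cmp : (mf n X).Ov fun e e' x =>
      fam h e' (e' x) = ((mf n X).J e e' x)ᴴ * fam h e (e x) * (mf n X).J e e' x := by
    intro e he e' he' x hx hx'
    rw [fam_eq h hx, fam_eq h hx', (hov _ (cc_mem x) e he x (cc_src x) hx).2.2.2.2 e' he' hx']
    simp only [Matrix.conjTranspose_mul, Matrix.mul_assoc]
  have key : (mf n X).All fun e z => SmM (fam h e) z ∧
      (ClM (fam h (cc n (e.symm z))) (cc n (e.symm z) (e.symm z)) → ClM (fam h e) z) := by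
    intro e he z hz
    obtain ⟨k1, k2, -, k3, -⟩ := hov _ (cc_mem (e.symm z)) e he _ (cc_src _) (e.map_target hz)
    rw [Mf.J] at k2
    rw [e.right_inv hz] at k1 k2 k3
    obtain ⟨h5, h6, -⟩ := mPB n (cc n (e.symm z) ∘ e.symm) z (fam h (cc n (e.symm z))) (fam h e)
      k1 k2 (h2 (e.symm z)) (by
        filter_upwards [k3] with w hw
        have h8 : fam h e (e (e.symm w)) = _ := cmp _ (cc_mem (e.symm z)) e he _ hw.2.1 hw.2.2.1
        rw [hw.2.2.2.2.2.1, hw.2.2.2.2.2.2] at h8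
        exact h8)
    exact ⟨h5, h6⟩
  exact ⟨⟨⟨fun e he z hz => (key e he z hz).1, cmp⟩, fun e _ z _ =>
    Matrix.isHermitian_conjTranspose_mul_mul _ (h1 _)⟩,
    fun hk e he z hz => (key e he z hz).2 (hk _)⟩

theorem met {h : X → Mat n} (hh : Hermitian h) : (mf n X).Met (fam h) :=
  ⟨(fam_ok (fun x => (hh.pos x).1) hh.smooth).1, fun e he z hz => by
    have h1 := ((mTR n (mf n X)).2.1 _ (cc_mem (e.symm z)) e he _ (cc_src _)
      (e.map_target hz)).2.1
    rw [Mf.J, e.right_inv hz] at h1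
    exact (hh.pos _).conjTranspose_mul_mul_same
      (Matrix.mulVec_injective_iff_isUnit.2 ((Matrix.isUnit_iff_isUnit_det _).2 h1.isUnit))⟩

theorem clo {β : X → Mat n} (hβ : ClosedForm β) : (mf n X).Clo (fam β) :=
  have h := fam_ok hβ.herm hβ.smooth
  ⟨h.1, h.2 fun x => clM_of (hβ.closed x)⟩

theorem nef_of {h β : X → Mat n} (hh : Hermitian h) (hβ : ClosedForm β) (nef : Nef h β) (ε : ℝ)
    (hε : 0 < ε) : ∃ f, (mf n X).Sm f ∧ (mf n X).Le 0 (fam β + (mf n X).hs f + ε • fam h) := by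
  obtain ⟨f, hf⟩ := nef ε hε
  have s : (mf n X).Sm f := ((mTR n (mf n X)).2.2.2.1 ℝ f).2.2 fun x =>
    ⟨_, cc_mem x, cc_src x, (hf x).1⟩
  have F := ((clo hβ).toForm.add ((mHES n _).1 f s).toForm).add ((met hh).toForm.smul ε)
  refine ⟨f, s, Mf.allOn_of_source fun e he x hx => ?_⟩
  have k := F.herm _ (cc_mem x) _ (cc_tgt x)
  rw [Pi.zero_apply, Pi.zero_apply, sub_zero, F.cmp _ (cc_mem x) e he x (cc_src x) hx]
  refine Matrix.PosSemidef.conjTranspose_mul_mul_same (.of_dotProduct_mulVec_nonneg k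
    fun v => Complex.nonneg_iff.2 ⟨?_, (k.im_star_dotProduct_mulVec_self v).symm⟩) _
  have h2 : (star v ⬝ᵥ (mf n X).hs f (cc n x) (cc n x x) *ᵥ v).re = _ :=
    (congrArg re (BPSH.hess_lv (hf x).1 v)).trans (ofReal_re _)
  simp only [Pi.add_apply, Pi.smul_apply, Matrix.add_mulVec, dotProduct_add, Matrix.smul_mulVec,
    dotProduct_smul, add_re, smul_re, smul_eq_mul, fam_at, h2]
  exact neg_le_iff_add_nonneg.1 ((hf x).2 v)

theorem hol_of {φ : (mf n X).Fam (E n)} (h : Hf (mf n X) φ) :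
    ClosedHol fun x : X => φ (cc n x) (cc n x x) := by
  have e1 : ∀ x : (mf n X).X, formIn (fun x : X => φ (cc n x) (cc n x x)) x
      =ᶠ[𝓝 (cc n x x)] φ (cc n x) := fun x => by
    filter_upwards [(cc n x).open_target.mem_nhds (cc_tgt x)] with z hz
    have h1 := h.cmp _ (cc_mem ((cc n x).symm z)) _ (cc_mem x) _ (cc_src _)
      ((cc n x).map_target hz)
    beta_reduce at h1
    rw [Mf.J, (cc n x).right_inv hz] at h1
    exact h1.symm
  have d := fun x => h.hol _ (cc_mem x) _ (cc_tgt x)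
  have d' := fun x => differentiableAt_pi.2 fun i => (d x i).self_of_nhds
  refine ⟨fun x => (d' x).congr_of_eventuallyEq (e1 x), fun x v w => ?_⟩
  have r : ∀ v i, fderiv ℂ (φ (cc n x)) (cc n x x) v i =
      ∑ k, dz k (fun z => φ (cc n x) z i) (cc n x x) * v k := fun v i => by
    have h1 := fderiv_eq_sum (fun z => φ (cc n x) z i) (cc n x x) v
    simp only [BHOL.dzb_zero (d x i).self_of_nhds, zero_mul, add_zero] at h1
    rw [← h1, ((hasFDerivAt_pi'.1 (d' x).hasFDerivAt i).restrictScalars ℝ).fderiv]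
    rfl
  refine (congrArg (fun L : E n →L[ℂ] E n => L v ⬝ᵥ w) (e1 x).fderiv_eq).trans
    (Eq.trans ?_ (congrArg (fun L : E n →L[ℂ] E n => L w ⬝ᵥ v) (e1 x).fderiv_eq).symm)
  simp only [dotProduct, r, Finset.sum_mul]
  rw [Finset.sum_comm]
  refine Finset.sum_congr rfl fun j _ => Finset.sum_congr rfl fun k _ => ?_
  rw [h.cl _ (cc_mem x) _ (cc_tgt x) j k]
  ring

theorem vol_mu [T2Space X] [CompactSpace X] [ConnectedSpace X] {h : X → Mat n}
    (hh : Hermitian h) : @vol n X _ _ (borel X) h = (mf n X).mu (fam h) := by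
  have : (mf n X).Cpt := ⟨‹_›, ‹_›, ‹_›⟩
  borelize X
  have r := fun x : X => (mMU n _ _ (met hh)).1 _ (cc_mem x)
  have le : vol h ≤ (mf n X).mu (fam h) :=
    iSup_le fun x => (r x).symm.le.trans Measure.restrict_le_self
  obtain ⟨t, ht⟩ := isCompact_univ.elim_finite_subcover (fun x : X => (chartAt (E n) x).source)
    (fun x => (chartAt (E n) x).open_source) fun x _ => mem_iUnion.2 ⟨x, mem_chart_source _ x⟩
  refine (Measure.ext_iff_of_biUnion_eq_univ t.countable_toSet (univ_subset_iff.1 ht)).2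
    fun x _ => le_antisymm (Measure.restrict_mono_measure le _) ?_
  rw [← inter_self (chartAt (E n) x).source,
    ← Measure.restrict_restrict (chartAt (E n) x).open_source.measurableSet, inter_self]
  exact Measure.restrict_mono_measure ((r x).le.trans (le_iSup (fun x : X =>
    ((volume.restrict (chartAt (E n) x).target).withDensity fun z =>
      ENNReal.ofReal (HS.inChart h x z).det.re).map (chartAt (E n) x).symm) x)) _

theorem top [T2Space X] [CompactSpace X] [ConnectedSpace X] [MeasurableSpace X] [BorelSpace X]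
    [AddAction ℂ X]
    (hol : MDifferentiable (𝓘(ℂ, ℂ).prod 𝓘(ℂ, E n)) 𝓘(ℂ, E n) fun p : ℂ × X => p.1 +ᵥ p.2)
    (free : ∀ x : X, ∃ t : ℂ, t +ᵥ x ≠ x)
    (no : ¬∃ φ : X → E n, ClosedHol φ ∧ ∀ x, φ x ⬝ᵥ gen n x = 1)
    {h β : X → Mat n} (hh : Hermitian h) (hβ : ClosedForm β) (nef : Nef h β) :
    ∫ x, ((β x).det / (h x).det).re ∂vol h = 0 := by
  obtain ⟨rfl⟩ := ‹BorelSpace X›
  have : (mf n X).Cpt := ⟨‹_›, ‹_›, ‹_›⟩
  obtain ⟨A, hA⟩ := act hol
  by_contra h0
  obtain ⟨φ, h1, h2⟩ := main A (met hh) (clo hβ)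
    (fun x => (free x).imp fun t ht h => ht ((hA t x).symm.trans h))
    (nef_of hh hβ nef) fun h1 => h0 (by
      rw [vol_mu hh, ← h1]
      refine integral_congr_ae (.of_forall fun x => ?_)
      have h2 := ((mINV n _ _ (met hh)).1 _ (clo hβ).toTen).2.2.1.at (cc_mem x) (cc_src x)
      rw [fam_at, fam_at] at h2
      exact h2.symm)
  refine no ⟨_, hol_of h1, fun x => ?_⟩
  have h3 := h2 _ (cc_mem x) _ (cc_tgt x)
  simp only [Act.V, Act.G, (cc n x).left_inv (cc_src x), hA] at h3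
  exact h3

end Pool.Agent.Lib.VF72
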