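import Pool.Agent.Lib.VF72.Lim

/-! Almost invariant and almost positive representatives of a class. -/

open scoped Classical Topology ContDiff ENNReal ComplexOrder Matrix
open Set MeasureTheory Complex Metric Filter

noncomputable section

namespace Pool.Agent.Lib.VF72

open Pool.Agent.Lib.SV (E)
open Pool.Agent.Lib.HS32

variable {n : ℕ} {M : Mf n} {V : M.Fam (E n)} {H T : M.Fam (Mat n)}

/-- A closed holomorphic form of degree one. -/
structure Hf (M : Mf n) (φ : M.Fam (E n)) : Prop where
  hol : M.All fun e z => ∀ i, HolN (fun w => φ e w i) z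
  cmp : M.Ov fun e e' x => φ e' (e' x) = φ e (e x) ᵥ* M.J e e' x
  cl : M.All fun e z => ∀ j k, dz k (fun w => φ e w j) z = dz j (fun w => φ e w k) z

theorem star_mv {A : Mat n} (h : A.IsHermitian) (v : E n) (i : Fin n) :
    star ((A *ᵥ v) i) = (star v ᵥ* A) i := by
  rw [← Pi.star_apply (A *ᵥ v), Matrix.star_mulVec, h.eq]

theorem lo_mv {ι : Type} {p : (ι → ℝ≥0∞) → Prop} (hp : Idl p) {U : Set (E n)}
    {A : ι → Fin n → E n → ℂ} {v : E n → E n} (hv : ∀ z ∈ U, ContDiffAt ℝ ∞ v z)
    (hc : ∀ j, Ct U fun a => A a j) (hA : ∀ j, Lo p U fun a => A a j) :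
    Lo p U fun a z => ∑ j, A a j z * v z j :=
  Lo.sum hp _ (fun j => (hA j).mul hp fun z hz => (contDiffAt_pi.1 (hv z hz) j).continuousAt)
    fun j a z hz => (hc j a z hz).mul (contDiffAt_pi.1 (hv z hz) j).continuousAt

theorem dich [M.Cpt] (hH : M.Met H) (hT : M.Clo T) (hV : M.Vec V)
    (hol : M.All fun e z => ∀ i, HolN (fun w => V e w i) z) {u : ℕ → M.X → ℝ} {κ : ℕ → ℝ}
    (hu : ∀ k, M.Sm (u k)) (hκ : Tendsto κ atTop (𝓝 0)) (hκ' : ∀ k, 0 ≤ κ k ∧ κ k ≤ 1)
    (hP : ∀ k, M.Le 0 (T + M.hs (u k) + κ k • H))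
    (hL : ∀ e ∈ M.C, ∀ i j, Lo (pN atTop) e.target fun k z =>
      dC (fun w => (T + M.hs (u k)) e w *ᵥ V e w) z i j) :
    (∃ φ, Hf M φ ∧ M.All fun e z => φ e z ⬝ᵥ V e z = 1) ∨
      ∃ F : M.X → ℂ, M.Sm F ∧ M.All fun e z => ∀ i, (T e z *ᵥ V e z) i = dzb i (F ∘ e.symm) z := by
  set l : Ultrafilter ℕ := hyperfilter ℕ
  have hl : (l : Filter ℕ) ≤ atTop := Nat.hyperfilter_le_atTop
  have h0 : M.All fun e z => ∀ i j, dzb j (fun w => V e w i) z = 0 := fun e he z hz i j =>
    BHOL.dzb_zero (hol e he z hz i).self_of_nhds j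
  have hα : ∀ k, M.Clo (T + M.hs (u k)) := fun k => hT.add ((mHES n M).1 _ (hu k))
  have cα := fun k => co_mul (hα k).toTen hV
  have cH := co_mul hH.toTen hV
  obtain ⟨v, hv, hb⟩ := qpsh hH (hT.toForm.add hH.toForm) hu fun k => (hP k).trans
    (((Mf.Le.refl (T + M.hs (u k))).add (hH.le_smul (hκ' k).2)).congr (fun _ _ _ _ => rfl)
      fun e _ z _ => by simp only [Pi.add_apply, one_smul]; abel)
  have tα : ∀ e ∈ M.C, ∀ i j, Ct e.target fun k z => (T + M.hs (u k)) e z i j :=
    fun e he i j k z hz => ((hα k).sm e he z hz i j).continuousAt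
  have bH : ∀ e ∈ M.C, ∀ i j, Lo pB e.target fun (_ : ℕ) z => H e z i j := fun e he i j =>
    bd_const fun z hz => (hH.sm e he z hz i j).continuousAt
  have bα : ∀ e ∈ M.C, ∀ i j, Lo pB e.target fun k z => (T + M.hs (u k)) e z i j :=
    fun e he i j => (bH e he i j).add idB ((hb e he j).2 i)
      (fun _ z hz => (hH.sm e he z hz i j).continuousAt) fun a z _ => by
        simp only [Pi.add_apply, Matrix.add_apply]
        exact le_trans (le_of_eq (congrArg _ (by ring))) ((norm_sub_le _ _).trans_eq (add_comm _ _))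
  set b : ℕ → M.Fam (E n) := fun k e z => star ((T + M.hs (u k)) e z *ᵥ V e z) with hbd
  have sb : ∀ k, M.All fun e z => ∀ i, ContDiffAt ℝ ∞ (fun w => b k e w i) z :=
    fun k e he z hz i => cd_star (contDiffAt_pi.1 ((cα k).sm e he z hz) i)
  have ex : ∀ e ∈ M.C, ∀ i, ∃ P : E n → ℂ, (∀ z ∈ e.target, HolN P z) ∧
      Lo (pN l) e.target fun k z => b k e z i - P z := fun e he i =>
    limh l (Q := fun k z => b k e z i) e.open_target (fun k z hz => sb k e he z hz i)
      ((lo_mv idB (hV.sm e he) (tα e he i) (bα e he i)).le idB fun k z _ => (norm_star _).le)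
      fun j => Lo.le (idN _) (fun K hK hK' => (hL e he i j K hK hK').mono_left hl) fun k z hz =>
        ((congrArg _ (dzb_star (cd_diff (contDiffAt_pi.1 ((cα k).sm e he z hz) i)))).trans
          (norm_star _)).le
  choose! P hP1 hP2 using ex
  have sP := fun e he i z hz => BHOL.smooth (hP1 e he i z hz)
  have tP : ∀ e ∈ M.C, ∀ i, Ct e.target fun k z => b k e z i - P e i z := fun e he i k z hz =>
    ((sb k e he z hz i).sub (sP e he i z hz)).continuousAt
  have hφ : Hf M fun e z i => P e i z := by
    refine ⟨fun e he z hz i => hP1 e he i z hz, fun e he e' he' x hx hx' => funext fun i => ?_,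
      fun e he z hz j k => wcl (l := l) e.open_target (b := fun a z => b a e z j)
        (b' := fun a z => b a e z k) (fun a z hz => ⟨sb a e he z hz j, sb a e he z hz k, ?_⟩)
        (fun z hz => ⟨sP e he j z hz, sP e he k z hz⟩) (hP2 e he j) (hP2 e he k) z hz⟩
    · have c1 : ∀ z ∈ ov e e' e.target, ContinuousAt (e ∘ e'.symm) z := fun z hz =>
        (ov_hol he he' hz).self_of_nhds.continuousAt
      have c2 : ∀ z ∈ ov e e' e.target, ContDiffAt ℝ ∞ (fun w a => jm (e ∘ e'.symm) w a i) z :=
        fun z hz => contDiffAt_pi.2 fun a => (mCHN n _ z (ov_hol he he' hz)).2.1 a i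
      have key := uniq (l := l) (Q := fun k z => b k e' z i) (P := P e' i)
        (P' := fun z => ∑ a, P e a (e (e'.symm z)) * jm (e ∘ e'.symm) z a i)
        (ov_open (e := e) (e' := e') e.open_target)
        (fun k z hz => (sb k e' he' z hz.1 i).continuousAt)
        (fun z hz => (sP e' he' i z hz.1).continuousAt)
        (fun z hz => tendsto_finsetSum _ fun a _ => (ContinuousAt.comp (f := e ∘ e'.symm)
          (sP e he a _ hz.2.2).continuousAt (c1 z hz)).mul
          (contDiffAt_pi.1 (c2 z hz) a).continuousAt)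
        ((hP2 e' he' i).sub inter_subset_left)
        ((lo_mv (idN _) c2 (A := fun k a z => b k e (e (e'.symm z)) a - P e a (e (e'.symm z)))
          (fun a k z hz => ContinuousAt.comp (f := e ∘ e'.symm) (tP e he a k _ hz.2.2) (c1 z hz))
          fun a => (hP2 e he a).chg (idN _) hH he he').le (idN _) fun k z hz => by
            have h1 := (cα k).cmp e he e' he' _ hz.2.1 (e'.map_target hz.1)
            simp only [Mf.J, e'.right_inv hz.1] at h1
            simp only [sub_mul, Finset.sum_sub_distrib, hbd]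
            rw [h1, Matrix.star_mulVec, Matrix.conjTranspose_conjTranspose]
            rfl)
        (e' x) ⟨e'.map_source hx', by
          rw [mem_preimage, e'.left_inv hx']; exact ⟨hx, e.map_source hx⟩⟩
      rw [e'.left_inv hx'] at key
      exact key
    · have e1 : ∀ j k, dz k (fun z => b a e z j) z =
          (star (V e z) ᵥ* dM k ((T + M.hs (u a)) e) z) j := fun j k => by
        have s := fun i => ((hα a).sm e he z hz) i j
        refine (dz_congr ?_).trans (dz_dot (b := fun w i => (T + M.hs (u a)) e w i j)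
          (hV.sm e he z hz) (contDiffAt_pi.2 s) (h0 e he z hz) k)
        filter_upwards [Mf.AllOn.ev (hα a).herm he hz] with w hw
        exact star_mv hw _ j
      rw [e1, e1]
      simp only [Matrix.vecMul, dotProduct]
      exact Finset.sum_congr rfl fun i _ => congrArg _ ((hα a).cl e he z hz i j k)
  have nc : ∀ e ∈ M.C, Lo (pN l) e.target fun k z =>
      b k e z ⬝ᵥ V e z - ∑ i, P e i z * V e z i := fun e he =>
    (lo_mv (idN _) (hV.sm e he) (tP e he) (hP2 e he)).le (idN _) fun k z _ => by
      simp only [sub_mul, Finset.sum_sub_distrib]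
      rfl
  have re : ∀ k, M.All fun e z => star (V e z) ⬝ᵥ (T + M.hs (u k)) e z *ᵥ V e z = b k e z ⬝ᵥ V e z :=
    fun k e he z hz => by
      simp only [hbd]
      rw [Matrix.star_mulVec, ((hα k).herm e he z hz).eq, Matrix.dotProduct_mulVec]
  have sc : M.All fun e z => HolN (fun z => ∑ i, P e i z * V e z i) z := fun e he z hz => by
    filter_upwards [eventually_all.2 fun i => hP1 e he i z hz,
      eventually_all.2 (hol e he z hz)] with w h1 h2
    exact DifferentiableAt.fun_sum fun i _ => (h1 i).fun_mul (h2 i)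
  obtain ⟨c, hc⟩ := HS.BPAR.const (M := M) (Φ := fun e z => ∑ i, P e i z * V e z i)
    (fun e he e' he' x hx hx' => by
      have h1 := hφ.cmp e he e' he' x hx hx'
      show (fun i => P e' i (e' x)) ⬝ᵥ _ = (fun i => P e i (e x)) ⬝ᵥ _
      rw [h1, ← hV.cmp e he e' he' x hx hx', Matrix.dotProduct_mulVec])
    fun e he z hz => by
      have d := fun z hz => BHOL.smooth (sc e he z hz)
      have r := uniq (l := l) (Q := fun k z => b k e z ⬝ᵥ V e z) e.open_target
        (fun k z hz => (ContDiffAt.sum fun i _ => (sb k e he z hz i).mul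
          (contDiffAt_pi.1 (hV.sm e he z hz) i)).continuousAt)
        (fun z hz => (d z hz).continuousAt) (fun z hz => (cd_star (d z hz)).continuousAt) (nc e he)
        ((nc e he).le (idN _) fun k z hz => by
          rw [← norm_star, star_sub, star_star, ← re k e he z hz, ← Matrix.star_dotProduct,
            re k e he z hz])
      refine ⟨cd_diff (d z hz), ContinuousLinearMap.ext fun w => ?_⟩
      have z0 := BHOL.dzb_zero (sc e he z hz).self_of_nhds
      rw [fderiv_eq_sum]
      refine Finset.sum_eq_zero fun j _ => ?_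
      rw [dz_congr ((e.open_target.eventually_mem hz).mono r), dz_star (cd_diff (d z hz)), z0]
      simp
  by_cases c0 : c ≠ 0
  · refine Or.inl ⟨fun e z i => c⁻¹ * P e i z, ⟨fun e he z hz i => (hP1 e he i z hz).mono
      fun w hw => hw.const_mul _, fun e he e' he' x hx hx' => ?_, fun e he z hz j k => ?_⟩,
      fun e he z hz => ?_⟩
    · exact (congrArg (c⁻¹ • ·) (hφ.cmp e he e' he' x hx hx')).trans (Matrix.smul_vecMul _ _ _).symm
    · rw [dz_const_mul _ (cd_diff (sP e he j z hz)), dz_const_mul _ (cd_diff (sP e he k z hz))]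
      exact congrArg _ (hφ.cl e he z hz j k)
    · have := hc e he z hz
      simp only [dotProduct, mul_assoc, ← Finset.mul_sum] at this ⊢
      rw [this, inv_mul_cancel₀ c0]
  obtain rfl := not_not.1 c0
  have κl := hκ.mono_left hl
  have nk : ∀ e ∈ M.C, ∀ {f : E n → ℂ}, (∀ z ∈ e.target, ContDiffAt ℝ ∞ f z) →
      Lo (pN l) e.target fun k z => κ k • f z := fun e he f hf =>
    nu_small κl (bd_const fun z hz => (hf z hz).continuousAt) fun k z _ => by
      rw [norm_smul, Real.norm_of_nonneg (hκ' k).1]
  have n1 : ∀ e ∈ M.C, ∀ i, Lo (pN l) e.target fun k z =>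
      ((T + M.hs (u k)) e z *ᵥ V e z) i := fun e he i => by
    have sH := fun z hz => contDiffAt_pi.1 (cH.sm e he z hz) i
    have sN := fun z hz => cd_dot (hV.sm e he z hz) (cH.sm e he z hz)
    refine (nk e he sH).add (idN _) (S := fun k z => ((T + M.hs (u k) + κ k • H) e z *ᵥ V e z) i)
      (nu_cs (R := fun k z => (T + M.hs (u k) + κ k • H) e z i i)
        (S := fun k z => star (V e z) ⬝ᵥ (T + M.hs (u k) + κ k • H) e z *ᵥ V e z)
        ((bα e he i i).add idB (bH e he i i) (tα e he i i) fun k z _ => ?_)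
        ((nk e he sN).add (idN _) (nc e he) (fun k z hz => ((sN z hz).const_smul (κ k)).continuousAt)
          fun k z hz => ?_)
        (fun k z hz => (((hα k).toTen.add (hH.toTen.smul _)).sm e he z hz i i).continuousAt)
        fun k z hz => ?_) (fun k z hz => ((sH z hz).const_smul (κ k)).continuousAt) fun k z _ => ?_
    · refine (norm_add_le _ _).trans (add_le_add le_rfl ?_)
      rw [Pi.smul_apply, Pi.smul_apply, Matrix.smul_apply, norm_smul,
        Real.norm_of_nonneg (hκ' k).1]
      exact mul_le_of_le_one_left (norm_nonneg _) (hκ' k).2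
    · rw [hc e he z hz, sub_zero, ← re k e he z hz, add_comm ‖_‖, Pi.add_apply, Pi.add_apply,
        Matrix.add_mulVec, dotProduct_add, Pi.smul_apply, Pi.smul_apply, Matrix.smul_mulVec,
        dotProduct_smul]
      exact norm_add_le _ _
    · have h1 := hP k e he z hz
      simp only [Pi.zero_apply, sub_zero] at h1
      simpa only [← Pi.single_star, star_one, single_one_dotProduct, Matrix.mulVec_single_one,
        Matrix.col_apply] using psd_cs h1 (V e z) (Pi.single i 1)
    · simp only [Pi.add_apply, Pi.smul_apply, Matrix.add_mulVec, Matrix.smul_mulVec]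
      exact le_trans (le_of_eq (congrArg _ (by ring))) ((norm_sub_le _ _).trans_eq (add_comm _ _))
  have cv := fun k => co_db (hv k).1.ofReal
  have iv := fun k => ((cv k).inv hV).rep
  have sv := fun k => ((cv k).inv hV).sm fun e he z hz =>
    cd_dot (hV.sm e he z hz) ((cv k).sm e he z hz)
  refine Or.inr (solve hH (co_mul hT.toTen hV) l (fun e he z hz i j => ?_)
    (G := fun k x => star (M.ev _ x)) (fun k e he z hz => cd_star (sv k e he z hz))
    (fun e he => (lo_mv idB (hV.sm e he) (fun j k z hz => (cd_dz ((hv k).1.lc e he z hz)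
      j).continuousAt) fun j => (hb e he j).1).le idB fun k z hz => ?_)
    fun e he i => (n1 e he i).le (idN _) fun k z hz => ?_)
  · have e1 : ∀ i j, dzb i (fun w => (T e w *ᵥ V e w) j) z =
        star ((star (V e z) ᵥ* dM i (T e) z) j) := fun i j => by
      have s : ContDiffAt ℝ ∞ (fun w a => T e w a j) z := contDiffAt_pi.2 fun a => hT.sm e he z hz a j
      rw [show (star (V e z) ᵥ* dM i (T e) z) j = _ from
        (dz_dot (hV.sm e he z hz) s (h0 e he z hz) i).symm,
        ← dzb_star (cd_diff (cd_dot (hV.sm e he z hz) s))]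
      refine dzb_congr ?_
      filter_upwards [Mf.AllOn.ev hT.herm he hz] with w hw
      exact (star_star _).symm.trans (congrArg star (star_mv hw _ j))
    rw [e1, e1]
    simp only [Matrix.vecMul, dotProduct]
    exact congrArg _ (Finset.sum_congr rfl fun a _ => congrArg _ (hT.cl e he z hz a j i))
  · rw [Function.comp_apply, iv k e he z hz]
    simp only [dotProduct, star_sum, star_mul, Pi.star_apply, star_star]
    exact le_of_eq (congrArg _ (Finset.sum_congr rfl fun j _ => congrArg (· * _)
      (star_dzb_ofReal (cd_diff ((hv k).1.lc e he z hz)))))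
  · have s := (hv k).1.lc e he z hz
    have h3 := dzb_star (j := i) (cd_diff (sv k e he z hz))
    erw [h3]
    rw [dz_congr ((iv k).ev he hz),
      dz_dot (hV.sm e he z hz) ((cv k).sm e he z hz) (h0 e he z hz),
      show dC (fun z i => dzb i ((fun x => (v k x : ℂ)) ∘ e.symm) z) z = M.hs (v k) e z from
        Matrix.ext fun a c => dz_dzb s c a, (hv k).2 e he z hz,
      ← star_mv (((mHES n M).1 _ (hu k)).herm e he z hz), star_star, Pi.add_apply, Pi.add_apply,
      Matrix.add_mulVec, Pi.add_apply]

end Pool.Agent.Lib.VF72
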