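import Pool.Agent.Lib.HS32.MAll
import Pool.Agent.Lib.HS66.LimHol

/-! Local bounds and limits in the mean. -/

open scoped Classical Topology ContDiff ENNReal ComplexOrder Matrix
open Set MeasureTheory Complex Metric Filter

noncomputable section

namespace Pool.Agent.Lib.VF72

open Pool.Agent.Lib.SV (E)
open Pool.Agent.Lib.HS32 Pool.Agent.Lib.HS66

variable {n : ℕ} {ι : Type} {U K : Set (E n)} {Q R S : ι → E n → ℂ} {p : (ι → ℝ≥0∞) → Prop}

/-- An ideal of families of numbers. -/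
structure Idl (p : (ι → ℝ≥0∞) → Prop) : Prop where
  mono : ∀ f g, p g → (∀ a, f a ≤ g a) → p f
  add : ∀ f g, p f → p g → p fun a => f a + g a
  smul : ∀ (c : ℝ) f, p f → p fun a => ENNReal.ofReal c * f a
  zero : p fun _ => 0

/-- Bounded families. -/
def pB (f : ι → ℝ≥0∞) : Prop := ∃ C : ℝ≥0∞, C ≠ ⊤ ∧ ∀ a, f a ≤ C

/-- Families that tend to zero. -/
def pN (l : Filter ι) (f : ι → ℝ≥0∞) : Prop := Tendsto f l (𝓝 0)

theorem idB : Idl (pB (ι := ι)) :=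
  ⟨fun _ _ ⟨C, h, h'⟩ e => ⟨C, h, fun a => (e a).trans (h' a)⟩,
   fun _ _ ⟨C, h, h'⟩ ⟨D, k, k'⟩ =>
    ⟨C + D, ENNReal.add_ne_top.2 ⟨h, k⟩, fun a => add_le_add (h' a) (k' a)⟩,
   fun c _ ⟨C, h, h'⟩ => ⟨ENNReal.ofReal c * C, ENNReal.mul_ne_top ENNReal.ofReal_ne_top h,
    fun a => mul_le_mul_right (h' a) _⟩, ⟨0, by simp, by simp⟩⟩

theorem idN (l : Filter ι) : Idl (pN l) :=
  ⟨fun _ _ h e => tendsto_of_tendsto_of_tendsto_of_le_of_le tendsto_const_nhds h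
    (fun _ => zero_le) e, fun _ _ h k => by simpa [pN] using h.add k,
   fun c _ h => by
    simpa [pN] using ENNReal.Tendsto.const_mul (a := ENNReal.ofReal c) h
      (Or.inr ENNReal.ofReal_ne_top), tendsto_const_nhds⟩

/-- The means on compact subsets of `U` belong to the ideal. -/
def Lo (p : (ι → ℝ≥0∞) → Prop) (U : Set (E n)) (Q : ι → E n → ℂ) : Prop :=
  ∀ K, IsCompact K → K ⊆ U → p fun a => ∫⁻ z in K, ‖Q a z‖ₑ

/-- Continuity of the members of a family. -/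
def Ct (U : Set (E n)) (Q : ι → E n → ℂ) : Prop := ∀ a, ∀ z ∈ U, ContinuousAt (Q a) z

theorem Lo.sub {U' : Set (E n)} (h : Lo p U Q) (hs : U' ⊆ U) : Lo p U' Q :=
  fun K hK hK' => h K hK (hK'.trans hs)

theorem Idl.dom (hp : Idl p) (hK : IsCompact K) {φ : E n → ℝ} (hφ : ∀ z ∈ K, ContinuousAt φ z)
    {u v : ι → E n → ℝ≥0∞} (h : ∀ a, ∀ z ∈ K, u a z ≤ ENNReal.ofReal (φ z) * v a z)
    (hv : p fun a => ∫⁻ z in K, v a z) : p fun a => ∫⁻ z in K, u a z := by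
  obtain ⟨B, -, hB⟩ := BBD.up hK hφ
  refine hp.mono _ _ (hp.smul B _ hv) fun a => ?_
  rw [← lintegral_const_mul' _ _ ENNReal.ofReal_ne_top]
  refine setLIntegral_mono' hK.measurableSet fun z hz => (h a z hz).trans ?_
  gcongr
  exact hB z hz

theorem en_le {x y : ℂ} {c : ℝ} (h : ‖x‖ ≤ c * ‖y‖) : ‖x‖ₑ ≤ ENNReal.ofReal c * ‖y‖ₑ := by
  rw [← ofReal_norm, ← ofReal_norm, mul_comm, ← ENNReal.ofReal_mul (norm_nonneg _), mul_comm]
  exact ENNReal.ofReal_le_ofReal h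

theorem Lo.dom (hp : Idl p) (hR : Lo p U R) {φ : E n → ℝ} (hφ : ∀ z ∈ U, ContinuousAt φ z)
    (h : ∀ a, ∀ z ∈ U, ‖Q a z‖ ≤ φ z * ‖R a z‖) : Lo p U Q := fun K hK hs =>
  hp.dom hK (fun z hz => hφ z (hs hz)) (fun a z hz => en_le (h a z (hs hz))) (hR K hK hs)

theorem Lo.le (hp : Idl p) (hR : Lo p U R) (h : ∀ a, ∀ z ∈ U, ‖Q a z‖ ≤ ‖R a z‖) : Lo p U Q :=
  hR.dom hp (φ := fun _ => 1) (fun _ _ => continuousAt_const) (by simpa using h)

theorem Lo.mul (hp : Idl p) (hR : Lo p U R) {f : E n → ℂ} (hf : ∀ z ∈ U, ContinuousAt f z) :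
    Lo p U fun a z => R a z * f z :=
  hR.dom hp (φ := fun z => ‖f z‖) (fun z hz => (hf z hz).norm) fun a z _ => by
    rw [norm_mul, mul_comm]

theorem Ct.aem (h : Ct U Q) (hK : MeasurableSet K) (hs : K ⊆ U) (a : ι) :
    AEMeasurable (fun z => ‖Q a z‖ₑ) (volume.restrict K) :=
  (continuous_enorm.comp_continuousOn fun z hz =>
    (h a z (hs hz)).continuousWithinAt).aemeasurable hK

theorem Lo.add (hp : Idl p) (hR : Lo p U R) (hS : Lo p U S) (hc : Ct U R)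
    (h : ∀ a, ∀ z ∈ U, ‖Q a z‖ ≤ ‖R a z‖ + ‖S a z‖) : Lo p U Q := fun K hK hs => by
  refine hp.mono _ _ (hp.add _ _ (hR K hK hs) (hS K hK hs)) fun a => ?_
  rw [← lintegral_add_left' (hc.aem hK.measurableSet hs a)]
  refine setLIntegral_mono' hK.measurableSet fun z hz => ?_
  rw [← ofReal_norm, ← ofReal_norm, ← ofReal_norm,
    ← ENNReal.ofReal_add (norm_nonneg _) (norm_nonneg _)]
  exact ENNReal.ofReal_le_ofReal (h a z (hs hz))

theorem Lo.sum {κ : Type} (hp : Idl p) (s : Finset κ) {R : κ → ι → E n → ℂ}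
    (hR : ∀ k, Lo p U (R k)) (hc : ∀ k, Ct U (R k)) : Lo p U fun a z => ∑ k ∈ s, R k a z := by
  induction s using Finset.induction_on with
  | empty => exact fun K _ _ => by simpa using hp.zero
  | insert k s hk ih =>
    exact (hR k).add hp ih (hc k) fun a z _ => by rw [Finset.sum_insert hk]; exact norm_add_le _ _

theorem lo_loc (hp : Idl p) (h : ∀ c ∈ U, ∃ r > 0, p fun a => ∫⁻ z in ball c r, ‖Q a z‖ₑ) :
    Lo p U Q := fun K hK hs => by
  refine hK.induction_on (p := fun S => p fun a => ∫⁻ z in S, ‖Q a z‖ₑ) (by simpa using hp.zero)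
    (fun S T e hT => hp.mono _ _ hT fun a => lintegral_mono_set e)
    (fun S T hS hT => hp.mono _ _ (hp.add _ _ hS hT) fun a => lintegral_union_le _ _ _)
    fun c hc => ?_
  obtain ⟨r, hr, h1⟩ := h c (hs hc)
  exact ⟨_, mem_nhdsWithin_of_mem_nhds (ball_mem_nhds c hr), h1⟩

theorem bd_const {f : E n → ℂ} (hf : ∀ z ∈ U, ContinuousAt f z) : Lo pB U fun _ : ι => f :=
  fun _ hK hs => ⟨_, (ContinuousOn.integrableOn_compact (μ := volume) hK fun z hz =>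
    (hf z (hs hz)).continuousWithinAt).2.ne, fun _ => le_rfl⟩

theorem nu_small {l : Filter ι} {κ : ι → ℝ} (hκ : Tendsto κ l (𝓝 0)) (hR : Lo pB U R)
    (h : ∀ a, ∀ z ∈ U, ‖Q a z‖ ≤ κ a * ‖R a z‖) : Lo (pN l) U Q := fun K hK hs => by
  obtain ⟨C, h1, h2⟩ := hR K hK hs
  have h3 := ENNReal.Tendsto.mul_const (b := C) (ENNReal.tendsto_ofReal hκ) (Or.inr h1)
  rw [ENNReal.ofReal_zero, zero_mul] at h3
  refine (idN l).mono _ _ h3 fun a => le_trans ?_ (mul_le_mul_right (h2 a) _)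
  rw [← lintegral_const_mul' _ _ ENNReal.ofReal_ne_top]
  exact setLIntegral_mono' hK.measurableSet fun z hz => en_le (h a z (hs hz))

theorem nu_cs {l : Filter ι} (hR : Lo pB U R) (hS : Lo (pN l) U S) (hc : Ct U R)
    (h : ∀ a, ∀ z ∈ U, ‖Q a z‖ ^ 2 ≤ ‖R a z‖ * ‖S a z‖) : Lo (pN l) U Q := fun K hK hs => by
  obtain ⟨C, h1, h2⟩ := hR K hK hs
  refine ENNReal.tendsto_nhds_zero.2 fun δ hδ => ?_
  have h3 : Tendsto (fun ε : ℝ => ENNReal.ofReal ε * C) (𝓝[>] 0) (𝓝 0) := by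
    have := ENNReal.Tendsto.mul_const (b := C)
      (ENNReal.tendsto_ofReal (tendsto_id (x := 𝓝 (0 : ℝ)))) (Or.inr h1)
    rw [ENNReal.ofReal_zero, zero_mul] at this
    exact this.mono_left nhdsWithin_le_nhds
  obtain ⟨ε, h4, h5⟩ := ((h3.eventually (gt_mem_nhds hδ)).and self_mem_nhdsWithin).exists
  have h5 : 0 < ε := h5
  have h6 := Tendsto.const_add (ENNReal.ofReal ε * C) ((idN l).smul ε⁻¹ _ (hS K hK hs))
  rw [add_zero] at h6
  refine (h6.eventually (gt_mem_nhds h4)).mono fun a ha => le_trans ?_ ha.le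
  refine le_trans ?_ (add_le_add (mul_le_mul_right (h2 a) _) le_rfl)
  rw [← lintegral_const_mul' _ _ ENNReal.ofReal_ne_top,
    ← lintegral_const_mul' _ _ ENNReal.ofReal_ne_top,
    ← lintegral_add_left' ((hc.aem hK.measurableSet hs a).const_mul _)]
  refine setLIntegral_mono' hK.measurableSet fun z hz => ?_
  rw [← ofReal_norm, ← ofReal_norm, ← ofReal_norm, ← ENNReal.ofReal_mul h5.le,
    ← ENNReal.ofReal_mul (by positivity), ← ENNReal.ofReal_add (by positivity) (by positivity)]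
  refine ENNReal.ofReal_le_ofReal (abs_le_of_sq_le_sq' ((h a z (hs hz)).trans ?_)
    (by positivity)).2
  have e : ‖R a z‖ * ‖S a z‖ = ε * ‖R a z‖ * (ε⁻¹ * ‖S a z‖) := by field_simp
  rw [e]
  nlinarith [sq_nonneg (ε * ‖R a z‖), sq_nonneg (ε⁻¹ * ‖S a z‖),
    show 0 ≤ ε * ‖R a z‖ * (ε⁻¹ * ‖S a z‖) by positivity]

theorem psd_cs {P : Mat n} (hP : P.PosSemidef) (v w : E n) :
    ‖star w ⬝ᵥ P *ᵥ v‖ ^ 2 ≤ ‖star w ⬝ᵥ P *ᵥ w‖ * ‖star v ⬝ᵥ P *ᵥ v‖ := by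
  set c := star w ⬝ᵥ P *ᵥ v with hc
  have h := BLAP.q_cs hP v (c • w)
  simp only [BLAP.q, star_smul, smul_dotProduct, Matrix.mulVec_smul, dotProduct_smul, ← hc,
    smul_eq_mul, ← mul_assoc, star_def, mul_conj, conj_mul', normSq_eq_norm_sq, re_ofReal_mul,
    ← ofReal_pow, ofReal_re] at h
  by_cases h0 : c = 0
  · rw [h0, norm_zero, sq, mul_zero]; positivity
  have h1 : 0 < ‖c‖ ^ 2 := by positivity
  have h2 := re_le_norm (star v ⬝ᵥ P *ᵥ v)
  have h3 := re_le_norm (star w ⬝ᵥ P *ᵥ w)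
  have h4 : 0 ≤ (star w ⬝ᵥ P *ᵥ w).re := hP.re_dotProduct_nonneg w
  refine le_of_mul_le_mul_left ?_ h1
  calc _ = (‖c‖ ^ 2) ^ 2 := by ring
    _ ≤ _ := h
    _ ≤ ‖star v ⬝ᵥ P *ᵥ v‖ * ‖c‖ ^ 2 * ‖star w ⬝ᵥ P *ᵥ w‖ := by gcongr
    _ = _ := by ring

theorem psd_entry {P : Mat n} (hP : P.PosSemidef) (i j : Fin n) :
    ‖P i j‖ ≤ ‖P i i‖ + ‖P j j‖ := by
  have h := psd_cs hP (Pi.single j 1) (Pi.single i 1)
  simp only [← Pi.single_star, star_one, single_one_dotProduct, Matrix.mulVec_single_one,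
    Matrix.col_apply] at h
  refine (abs_le_of_sq_le_sq' (h.trans ?_) (by positivity)).2
  nlinarith [norm_nonneg (P i i), norm_nonneg (P j j), sq_nonneg ‖P i i‖, sq_nonneg ‖P j j‖]

/-! ### Integration by parts -/

theorem intU (hU : IsOpen U) (hK : IsCompact K) (hs : K ⊆ U) {g : E n → ℂ}
    (hg : ∀ z ∈ U, ContinuousAt g z) (h0 : ∀ z ∈ U, z ∉ K → g z = 0) : IntegrableOn g U :=
  (ContinuousOn.integrableOn_compact hK fun z hz =>
    (hg z (hs hz)).continuousWithinAt).of_forall_sdiff_eq_zero hU.measurableSet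
      fun z hz => h0 z hz.1 hz.2

theorem off (hU : IsOpen U) (hK : IsCompact K) {χ : E n → ℂ} (h0 : ∀ z ∈ U, z ∉ K → χ z = 0)
    (j : Fin n) : (∀ z ∈ U, z ∉ K → dz j χ z = 0) ∧ ∀ z ∈ U, z ∉ K → dzb j χ z = 0 := by
  have e : ∀ z ∈ U, z ∉ K → χ =ᶠ[𝓝 z] fun _ => 0 := fun z hz h => by
    filter_upwards [hU.mem_nhds hz, hK.isClosed.isOpen_compl.mem_nhds h] with w h1 h2
    exact h0 w h1 h2
  exact ⟨fun z hz h => by rw [dz_congr (e z hz h), dz_const],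
    fun z hz h => by rw [dzb_congr (e z hz h), dzb_const]⟩

theorem ibp (hU : IsOpen U) (hK : IsCompact K) (hs : K ⊆ U) {χ f : E n → ℂ}
    (hχ : ∀ z ∈ U, ContDiffAt ℝ ∞ χ z) (h0 : ∀ z ∈ U, z ∉ K → χ z = 0)
    (hf : ∀ z ∈ U, ContDiffAt ℝ ∞ f z) (j : Fin n) :
    ∫ z in U, χ z * dz j f z = -∫ z in U, dz j χ z * f z ∧
      ∫ z in U, χ z * dzb j f z = -∫ z in U, dzb j χ z * f z := by
  obtain ⟨-, -, h1, h2⟩ := mIBPE n U K (fun z => χ z * f z) hU hK hs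
    (fun z hz => (hχ z hz).mul (hf z hz)) (fun z hz h => by rw [h0 z hz h, zero_mul]) j
  have i : ∀ {a b : E n → ℂ}, (∀ z ∈ U, ContDiffAt ℝ ∞ a z) → (∀ z ∈ U, z ∉ K → a z = 0) →
      (∀ z ∈ U, ContDiffAt ℝ ∞ b z) → IntegrableOn (fun z => a z * b z) U := fun ha h hb =>
    intU hU hK hs (fun z hz => ((ha z hz).mul (hb z hz)).continuousAt)
      fun z hz k => by rw [h z hz k, zero_mul]
  constructor
  · rw [eq_neg_iff_add_eq_zero, add_comm, ← integral_add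
      (i (fun z hz => cd_dz (hχ z hz) j) (off hU hK h0 j).1 hf)
      (i hχ h0 fun z hz => cd_dz (hf z hz) j), ← h1]
    exact setIntegral_congr_fun hU.measurableSet fun z hz =>
      (dz_mul (cd_diff (hχ z hz)) (cd_diff (hf z hz))).symm
  · rw [eq_neg_iff_add_eq_zero, add_comm, ← integral_add
      (i (fun z hz => cd_dzb (hχ z hz) j) (off hU hK h0 j).2 hf)
      (i hχ h0 fun z hz => cd_dzb (hf z hz) j), ← h2]
    exact setIntegral_congr_fun hU.measurableSet fun z hz =>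
      (dzb_mul (cd_diff (hχ z hz)) (cd_diff (hf z hz))).symm

theorem pair (hp : Idl p) (hU : IsOpen U) (hK : IsCompact K) (hs : K ⊆ U) {χ : E n → ℂ}
    (hχ : ∀ z ∈ U, ContinuousAt χ z) (h0 : ∀ z ∈ U, z ∉ K → χ z = 0) (hQ : Lo p U Q) :
    p fun a => ‖∫ z in U, χ z * Q a z‖ₑ := by
  refine hp.mono _ _ (hQ.mul hp hχ K hK hs) fun a => ?_
  rw [setIntegral_eq_of_subset_of_forall_sdiff_eq_zero hU.measurableSet hs
    fun z hz => by rw [h0 z hz.1 hz.2, zero_mul]]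
  simp only [mul_comm (χ _)]
  exact enorm_integral_le_lintegral_enorm _

end Pool.Agent.Lib.VF72
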