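import Pool.Agent.Lib.VF72.Prof

/-! Nef classes of non-zero volume on a manifold with an action without fixed point. -/

open scoped Classical Topology ContDiff ENNReal ComplexOrder Matrix
open Set MeasureTheory Complex Metric Filter

noncomputable section

namespace Pool.Agent.Lib.VF72

open Pool.Agent.Lib.SV (E)
open Pool.Agent.Lib.HS32

variable {n : ℕ} {M : Mf n} {A : Act M} {H S T : M.Fam (Mat n)} {q q₀ : ℝ → ℝ}

theorem vol_eq [M.Cpt] (hH : M.Met H) (hT : M.Clo T) (hS : M.Form S) {σ : M.Fam (E n)}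
    (h : Co M σ) (k : M.All fun e z => S e z = T e z + dC (σ e) z) :
    ∫ x, M.dq H S x ∂M.mu H = ∫ x, M.dq H T x ∂M.mu H := by
  have e1 : ∀ T, M.Form T → ∀ x, M.ev (fun e z => (T e z).det / (H e z).det) x =
      (M.dq H T x : ℂ) := fun T hT x => by
    have := (Mf.AllOn.ch ((mINV n M H hH).2.1 T hT) x).2.1
    rw [Mf.ch_symm] at this
    exact this.symm
  have key := vol_d hH hT.toTen hT.cl h
  rw [Mf.ev_congr (Ψ := fun e z => (S e z).det / (H e z).det) fun e he z hz => by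
    simp only [k e he z hz]] at key
  simp only [e1 T hT.toForm, e1 S hS, integral_complex_ofReal] at key
  exact_mod_cast key

theorem psd_diag {P Q : Mat n} (hP : P.PosSemidef) (h : (Q - P).PosSemidef) (i : Fin n) :
    ‖P i i‖ ≤ ‖Q i i‖ := by
  have h1 : P i i ≤ Q i i := sub_nonneg.1 (h.diag_nonneg (i := i))
  rw [← re_eq_norm.2 hP.diag_nonneg, ← re_eq_norm.2 (hP.diag_nonneg.trans h1)]
  exact h1.1

theorem shift (h : Prof q) (h₀ : Prof q₀) (hT : M.Clo T) {f : M.X → ℝ} (hf : M.Sm f) :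
    ∃ u, M.Sm u ∧ M.All fun e z =>
      A.av (rho q) (T + M.hs f) e z = (A.av (rho q₀) T + M.hs u) e z := by
  have c := (mHES n M).1 f hf
  obtain ⟨u, hu, k⟩ := h.cls (A := A) h₀ (hT.add c)
  obtain ⟨v, hv, k'⟩ := Act.av_hs (A := A) hf h₀.sw.wg (rho_real q₀)
  refine ⟨_, hv.add hu, fun e he z hz => ?_⟩
  have h1 := Act.av_add (A := A) hT.toTen c.toTen h₀.sw.wg 1 e he z hz
  simp only [one_smul] at h1
  beta_reduce
  rw [k e he z hz, h1, k' e he z hz, Pi.add_apply, Pi.add_apply,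
    (((mLAP n M v u hv hu).1 0) e he z hz).2.1, add_assoc]

theorem step [M.Cpt] (hH : M.Met H) (hT : M.Clo T) (h₀ : Prof q₀)
    (nef : ∀ ε : ℝ, 0 < ε → ∃ f, M.Sm f ∧ M.Le 0 (T + M.hs f + ε • H)) {κ : ℝ} (hκ : 0 < κ) :
    ∃ u v, M.Sm u ∧ M.Sm v ∧ M.Le 0 (A.av (rho q₀) T + M.hs u + κ • H) ∧
      M.Le 0 (A.av (rho q₀) T + H + M.hs v) ∧ M.All fun e z => ∀ i j,
        ‖dC (fun w => (A.av (rho q₀) T + M.hs u) e w *ᵥ A.V e w) z i j‖ ≤
          κ * (‖H e z i i‖ + ‖H e z j j‖ + (‖(A.av (rho q₀) T + H + M.hs v) e z i i‖ +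
            ‖(A.av (rho q₀) T + H + M.hs v) e z j j‖)) := by
  obtain ⟨q, q', h, h', hq⟩ := prof_small hκ
  have a : ∀ q, Prof q → ∀ δ : ℝ, 0 < δ → ∀ᶠ ε : ℝ in 𝓝[>] 0,
      M.Le (ε • A.av (rho q) H) (δ • H) := fun q h δ hδ => by
    obtain ⟨C, h1, h2, -⟩ := (mBD n M H hH).1 _
      (Act.av_form (A := A) hH.toForm h.sw.wg (rho_real q))
    filter_upwards [Ioo_mem_nhdsGT (div_pos hδ h1)] with ε hε
    refine (h2.smul hε.1.le).trans ?_
    rw [smul_smul]
    exact hH.le_smul ((le_div_iff₀ h1).1 hε.2.le)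
  obtain ⟨ε, ⟨h1, h2⟩, h3⟩ :=
    (((a q h κ hκ).and (a q' h' 1 one_pos)).and self_mem_nhdsWithin).exists
  rw [one_smul] at h2
  obtain ⟨f, hf, hP⟩ := nef ε h3
  have hB := hT.add ((mHES n M).1 f hf)
  have hS := hB.toForm.add (hH.toForm.smul ε)
  obtain ⟨u, hu, k⟩ := shift (A := A) h h₀ hT hf
  obtain ⟨v, hv, k'⟩ := shift (A := A) h' h₀ hT hf
  have b : M.Le (A.av (rho q') (T + M.hs f + ε • H)) (A.av (rho q₀) T + H + M.hs v) :=
    ((Mf.Le.refl (A.av (rho q₀) T + M.hs v)).add h2).congr (fun e he z hz =>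
      (Act.av_add hB.toTen hH.toTen h'.sw.wg ε e he z hz).trans (congrArg (· + _) (k' e he z hz))) fun e _ z _ => congrFun (congrFun (add_right_comm _ _ _) e) z
  have p := Act.av_pos (A := A) hS h'.sw.wg h'.pos hP
  refine ⟨u, v, hu, hv, (Act.av_pos hS h.sw.wg h.pos hP).trans
    (((Mf.Le.refl (A.av (rho q₀) T + M.hs u)).add h1).congr (fun e he z hz =>
      (Act.av_add hB.toTen hH.toTen h.sw.wg ε e he z hz).trans (congrArg (· + _) (k e he z hz)))
      fun _ _ _ _ => rfl), p.trans b, fun e he z hz i j => ?_⟩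
  have e1 : dC (fun w => (A.av (rho q₀) T + M.hs u) e w *ᵥ A.V e w) z i j =
      ε • A.av (dw 1 (rho q)) H e z i j - A.av (dw 1 (rho q)) (T + M.hs f + ε • H) e z i j := by
    rw [Act.av_add hB.toTen hH.toTen h.sw.dw.wg ε e he z hz, Matrix.add_apply, Matrix.smul_apply,
      sub_add_cancel_right, ← Matrix.neg_apply, ← Act.av_lie hB h.sw e he z hz]
    exact dz_congr ((Mf.AllOn.ev k he hz).mono fun w hw => by simp only [hw])
  have d1 := Act.av_dom (A := A) hS hP h'.sw.wg h'.pos hq he hz i j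
  have d2 := Act.av_dom (A := A) hH.toForm hH.nonneg h'.sw.wg h'.pos hq he hz i j
  have d3 := psd_diag (by simpa using p e he z hz) (b e he z hz)
  have d4 := psd_diag (by
    simpa using (Act.av_pos (A := A) hH.toForm h'.sw.wg h'.pos hH.nonneg).smul (le_of_lt h3)
      e he z hz) (h2 e he z hz)
  simp only [Pi.smul_apply, Matrix.smul_apply, norm_smul, Real.norm_of_nonneg (le_of_lt h3)] at d4
  rw [e1]
  refine (norm_sub_le _ _).trans ?_
  rw [norm_smul, Real.norm_of_nonneg (le_of_lt h3)]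
  nlinarith [d3 i, d3 j, d4 i, d4 j, mul_le_mul_of_nonneg_left d2 (le_of_lt h3)]

theorem main [M.Cpt] (A : Act M) (hH : M.Met H) (hT : M.Clo T) (fx : ∀ x, ∃ t, A.g t x ≠ x)
    (nef : ∀ ε : ℝ, 0 < ε → ∃ f, M.Sm f ∧ M.Le 0 (T + M.hs f + ε • H))
    (vol : ∫ x, M.dq H T x ∂M.mu H ≠ 0) :
    ∃ φ, Hf M φ ∧ M.All fun e z => φ e z ⬝ᵥ A.V e z = 1 := by
  obtain ⟨q, -, h, -⟩ := prof_small one_pos
  have c := Act.av_clo (A := A) hT h.sw.wg (rho_real q)
  have p : ∀ k : ℕ, (0 : ℝ) < 1 / (k + 1) := fun k => by positivity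
  choose u v hu hv h1 h2 h3 using fun k => step (A := A) hH hT h nef (p k)
  obtain ⟨_, -, hb⟩ := qpsh hH (c.toForm.add hH.toForm) hv h2
  have t := tendsto_one_div_add_atTop_nhds_zero_nat (𝕜 := ℝ)
  refine (dich hH c Act.vec_V Act.hol_V hu t (fun k => ⟨(p k).le, (div_le_one (by positivity)).2
    (le_add_of_nonneg_left k.cast_nonneg)⟩) h1 fun e he i j => ?_).resolve_right ?_
  · have s := fun i z hz => (hH.sm e he z hz i i).continuousAt.norm
    have r : ∀ a b : ℂ, ‖((‖a‖ + ‖b‖ : ℝ) : ℂ)‖ = ‖a‖ + ‖b‖ := fun a b =>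
      Complex.norm_of_nonneg (by positivity)
    have s' := fun z hz => continuous_ofReal.continuousAt.comp ((s i z hz).add (s j z hz))
    refine nu_small t ((bd_const s').add idB (((hb e he i).2 i).add idB ((hb e he j).2 j)
      (fun k z hz => (((c.toTen.add hH.toTen).add ((mHES n M).1 _ (hv k)).toTen).sm e he z hz i
        i).continuousAt) fun k z _ => (r _ _).le) (fun _ => s') fun k z _ => (r _ _).le)
      fun k z hz => (h3 k e he z hz i j).trans_eq ?_
    simp only [r, Function.comp_apply, Pi.add_apply]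
    rw [Complex.norm_of_nonneg (by positivity)]
  rintro ⟨F, hF, k⟩
  have b := bott hH c Act.vec_V Act.db_V (Act.V_ne fx) hF k
  rw [vol_eq hH (hT.smul Real.pi) c.toForm (co_mul (Act.av_ten hT.toTen
    (h.zero.elim fun _ hb => (sw_rad h.sm hb).inv)) Act.vec_V) (h.pomp hT)] at b
  simp only [Mf.dq_smul, integral_const_mul] at b
  exact mul_ne_zero (pow_ne_zero _ Real.pi_ne_zero) vol b

end Pool.Agent.Lib.VF72
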