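import Pool.Agent.Lib.VF72.Est

/-! Bounds for the derivatives of quasi-plurisubharmonic functions; limits of closed forms. -/

open scoped Classical Topology ContDiff ENNReal ComplexOrder Matrix
open Set MeasureTheory Complex Metric Filter

noncomputable section

namespace Pool.Agent.Lib.VF72

open Pool.Agent.Lib.SV (E)
open Pool.Agent.Lib.HS32 Pool.Agent.Lib.HS66

variable {n : ℕ} {ι : Type} {U : Set (E n)} {u : ι → E n → ℂ}

theorem bump (hU : IsOpen U) {c : E n} (hc : c ∈ U) : ∃ r > 0, closedBall c (4 * r) ⊆ U ∧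
    ∃ χ : E n → ℝ, ContDiff ℝ ∞ (fun z => (χ z : ℂ)) ∧ (∀ z, 0 ≤ χ z) ∧
      (∀ z ∈ ball c (3 * r), χ z = 1) ∧ ∀ z ∉ closedBall c (4 * r), χ z = 0 := by
  obtain ⟨R, hR, hs⟩ := nhds_basis_closedBall.mem_iff.1 (hU.mem_nhds hc)
  let χ : ContDiffBump c := ⟨3 * (R / 4), 4 * (R / 4), by positivity, by linarith⟩
  exact ⟨R / 4, by positivity, by rwa [show 4 * (R / 4) = R by ring], χ,
    ofRealCLM.contDiff.comp χ.contDiff, fun _ => χ.nonneg,
    fun z hz => χ.one_of_mem_closedBall (ball_subset_closedBall hz),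
    fun z hz => χ.zero_of_le_dist (le_of_lt (by simpa using hz))⟩

theorem mass (hU : IsOpen U) {A : E n → Mat n} (hu : ∀ a, ∀ z ∈ U, ContDiffAt ℝ ∞ (u a) z)
    (hA : ∀ z ∈ U, SmM A z) (hb : Lo pB U u)
    (hP : ∀ a, ∀ z ∈ U, (A z + hess (u a) z).PosSemidef) (i j : Fin n) :
    Lo pB U fun a z => (A z + hess (u a) z) i j := by
  have sm : ∀ a, ∀ z ∈ U, SmM (fun z => A z + hess (u a) z) z := fun a z hz =>
    (hA z hz).add (smM_hess (hu a z hz))
  have key : ∀ i, Lo pB U fun a z => (A z + hess (u a) z) i i := fun i => by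
    refine lo_loc idB fun c hc => ?_
    obtain ⟨r, hr, hs, χ, h1, h2, h3, h4⟩ := bump hU hc
    have hK := isCompact_closedBall c (4 * r)
    have h5 : ∀ z ∈ U, z ∉ closedBall c (4 * r) → (χ z : ℂ) = 0 := fun z _ h => by simp [h4 z h]
    have h6 := (off hU hK h5 i).2
    have s1 : ∀ z ∈ U, ContDiffAt ℝ ∞ (dzb i fun z => (χ z : ℂ)) z := fun z _ =>
      cd_dzb h1.contDiffAt i
    refine ⟨r, hr, idB.mono _ _ (idB.add _ _
      (pair idB hU hK hs (fun z _ => h1.continuous.continuousAt) h5
        (bd_const fun z hz => (hA z hz i i).continuousAt))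
      (pair idB hU hK hs (fun z hz => (cd_dz (s1 z hz) i).continuousAt) (off hU hK h6 i).1 hb))
      fun a => ?_⟩
    have i1 : ∀ {f : E n → ℂ}, (∀ z ∈ U, ContDiffAt ℝ ∞ f z) →
        IntegrableOn (fun z => χ z * f z) U := fun hf => intU hU hK hs
      (fun z hz => (h1.contDiffAt.mul (hf z hz)).continuousAt) fun z hz h => by simp [h4 z h]
    have e1 : ∫ z in U, χ z * (A z + hess (u a) z) i i = (∫ z in U, χ z * A z i i) +
        ∫ z in U, dz i (dzb i fun z => (χ z : ℂ)) z * u a z := by
      simp only [Matrix.add_apply, mul_add, hess_apply]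
      rw [integral_add (i1 fun z hz => hA z hz i i) (i1 fun z hz => cd_dzb (cd_dz (hu a z hz) i) i),
        (ibp hU hK hs (fun z _ => h1.contDiffAt) h5 (fun z hz => cd_dz (hu a z hz) i) i).2,
        (ibp hU hK hs s1 h6 (hu a) i).1, neg_neg]
    refine le_trans ?_ (enorm_add_le _ _)
    have e2 : ∫ z in U, χ z * (A z + hess (u a) z) i i =
        ((∫ z in U, ‖χ z * (A z + hess (u a) z) i i‖ : ℝ) : ℂ) := by
      rw [← integral_complex_ofReal]
      exact setIntegral_congr_fun hU.measurableSet fun z hz => (norm_of_nonneg'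
        (mul_nonneg (zero_le_real.2 (h2 z)) (hP a z hz).diag_nonneg)).symm
    rw [← e1, e2, ← ofReal_norm, norm_real, Real.norm_of_nonneg (integral_nonneg fun _ =>
      norm_nonneg _), ofReal_integral_norm_eq_lintegral_enorm (i1 fun z hz => sm a z hz i i)]
    refine le_trans (setLIntegral_mono' measurableSet_ball fun z hz => le_of_eq ?_)
      (lintegral_mono_set (ball_subset_closedBall.trans
        ((closedBall_subset_closedBall (by linarith)).trans hs)))
    rw [h3 z (ball_subset_ball (by linarith) hz), ofReal_one, one_mul]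
  exact (key i).add idB (key j) (fun a z hz => (sm a z hz i i).continuousAt)
    fun a z hz => psd_entry (hP a z hz) i j

theorem grad (hU : IsOpen U) (hu : ∀ a, ∀ z ∈ U, ContDiffAt ℝ ∞ (u a) z) (hb : Lo pB U u)
    (j : Fin n) (hh : ∀ i, Lo pB U fun a z => hess (u a) z i j) :
    Lo pB U fun a => dz j (u a) := by
  refine lo_loc idB fun c hc => ?_
  obtain ⟨r, hr, hs, χ, h1, -, h3, h4⟩ := bump hU hc
  obtain ⟨g, hgs, hg⟩ := exists_ker (n := n) hr
  have hK := isCompact_closedBall c (4 * r)
  have hg' : ContDiff ℝ ∞ fun t => (g t : ℂ) := ofRealCLM.contDiff.comp hgs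
  obtain ⟨M, hM⟩ := ((hg.cpt.comp_left (g := fun x : ℝ => (x : ℂ)) (by simp)).fderiv
    ℝ).exists_bound_of_continuous (hg'.continuous_fderiv (by simp))
  have out : ∀ a, ∀ y ∉ closedBall c (4 * r), (fun z => χ z * u a z) =ᶠ[𝓝 y] fun _ => 0 :=
    fun a y hy => (isClosed_closedBall.isOpen_compl.eventually_mem hy).mono fun w hw => by
      simp [h4 w hw]
  have sG : ∀ a y, ContDiffAt ℝ ∞ (fun z => χ z * u a z) y := fun a y => by
    by_cases hy : y ∈ closedBall c (4 * r)
    · exact h1.contDiffAt.mul (hu a y (hs hy))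
    · exact contDiffAt_const.congr_of_eventuallyEq (out a y hy)
  have eG : ∀ a, ∀ y ∈ ball c (3 * r), dz j (fun z => χ z * u a z) =ᶠ[𝓝 y] dz j (u a) :=
    fun a y hy => dz_congr_ev ((isOpen_ball.eventually_mem hy).mono fun w hw => by simp [h3 w hw])
  have b1 := Lo.sum idB Finset.univ (R := fun i a z => ((2 * ‖hess (u a) z i j‖ : ℝ) : ℂ))
    (fun i => (hh i).dom idB (φ := fun _ => 2) (fun _ _ => continuousAt_const)
      fun a z _ => by simp)
    (fun i a z hz => continuous_ofReal.continuousAt.comp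
      (continuousAt_const.mul (smM_hess (hu a z hz) i j).continuousAt.norm))
    _ (isCompact_closedBall c (r + r)) ((closedBall_subset_closedBall (by linarith)).trans hs)
  have b2 := hb.mul idB (fun z _ => h1.continuous.continuousAt) _ hK hs
  refine ⟨r, hr, idB.mono _ _ (idB.add _ _ (idB.smul r _ b1)
    (idB.smul (volume.real (ball c r)) _ (idB.smul M _ b2))) fun a => ?_⟩
  have hG : ContDiff ℝ 1 (dz j fun z => χ z * u a z) :=
    contDiff_iff_contDiffAt.2 fun y => cd_le (cd_dz (sG a y) j) 1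
  have e1 := hg.est hr.le hG (HasCompactSupport.intro hK fun y hy => by
    rw [dz_congr (out a y hy), dz_const]) c r
  have e2 : ∀ x, ‖∫ t, g t • dz j (fun z => χ z * u a z) (x - t)‖ₑ ≤
      ENNReal.ofReal M * ∫⁻ z in closedBall c (4 * r), ‖u a z * χ z‖ₑ := fun x => by
    have e3 := (ibp isOpen_univ (isCompact_closedBall x r) (subset_univ _)
      (χ := fun y => (g (x - y) : ℂ)) (fun y _ => (hg'.comp (contDiff_const.sub
        contDiff_id)).contDiffAt) (fun y _ hy => by
          by_contra h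
          exact hy (by simpa [dist_eq_norm, norm_sub_rev] using hg.supp _ (ofReal_ne_zero.1 h)))
      (fun y _ => sG a y) j).1
    rw [Measure.restrict_univ] at e3
    rw [← integral_sub_left_eq_self _ volume x]
    simp only [sub_sub_cancel, real_smul]
    rw [e3, enorm_neg, ← lintegral_const_mul' _ _ ENNReal.ofReal_ne_top,
      ← setIntegral_eq_integral_of_forall_compl_eq_zero (s := closedBall c (4 * r))
        fun y hy => by simp [h4 y hy]]
    refine (enorm_integral_le_lintegral_enorm _).trans (lintegral_mono fun y => en_le ?_)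
    rw [norm_mul, mul_comm (u a y)]
    refine mul_le_mul_of_nonneg_right ?_ (norm_nonneg _)
    have d := ((hg'.differentiable (by simp) (x - y)).hasFDerivAt.comp y
      ((hasFDerivAt_id y).const_sub x)).fderiv
    have m : ∀ s : ℂ, ‖s‖ = 1 → ‖fderiv ℝ (fun y => (g (x - y) : ℂ)) y (Pi.single j s)‖ ≤ M :=
      fun s hs => by
        rw [show fderiv ℝ (fun y => (g (x - y) : ℂ)) y = _ from d]
        refine (ContinuousLinearMap.le_of_opNorm_le _ (hM (x - y)) _).trans (le_of_eq ?_)
        simp [Pi.norm_single, hs]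
    rw [dz, norm_div, norm_ofNat, div_le_iff₀ two_pos]
    refine (norm_sub_le _ _).trans ?_
    rw [norm_mul, norm_I]
    linarith [m 1 norm_one, m I norm_I]
  calc _ ≤ ∫⁻ x in ball c r, (‖dz j (fun z => χ z * u a z) x -
          ∫ t, g t • dz j (fun z => χ z * u a z) (x - t)‖ₑ +
          ENNReal.ofReal M * ∫⁻ z in closedBall c (4 * r), ‖u a z * χ z‖ₑ) := by
        refine setLIntegral_mono' measurableSet_ball fun x hx => ?_
        rw [← (eG a x (ball_subset_ball (by linarith) hx)).eq_of_nhds]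
        refine le_trans ?_ (add_le_add le_rfl (e2 x))
        exact le_trans (le_of_eq (congrArg _ (sub_add_cancel _ _).symm)) (enorm_add_le _ _)
    _ ≤ _ := by
        rw [lintegral_add_right _ measurable_const, setLIntegral_const, mul_comm _ (volume _),
          ofReal_measureReal measure_ball_lt_top.ne]
        refine add_le_add (e1.trans (mul_le_mul_right ?_ _)) le_rfl
        refine le_trans (setLIntegral_mono' measurableSet_ball fun y hy => le_of_eq ?_)
          (lintegral_mono_set ball_subset_closedBall)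
        beta_reduce
        rw [← ofReal_sum, ← ofReal_norm, norm_real,
          Real.norm_of_nonneg (Finset.sum_nonneg fun _ _ => by positivity), dbn,
          (eG a y (ball_subset_ball (by linarith) hy)).fderiv_eq]
        refine congrArg _ (Finset.sum_congr rfl fun i _ => ?_)
        rw [hess_apply, dzb, norm_div, norm_ofNat]
        ring

theorem wcl {l : Filter ι} [l.NeBot] (hU : IsOpen U) {b b' : ι → E n → ℂ} {φ φ' : E n → ℂ}
    {j k : Fin n} (hb : ∀ a, ∀ z ∈ U, ContDiffAt ℝ ∞ (b a) z ∧ ContDiffAt ℝ ∞ (b' a) z ∧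
      dz k (b a) z = dz j (b' a) z) (hφ : ∀ z ∈ U, ContDiffAt ℝ ∞ φ z ∧ ContDiffAt ℝ ∞ φ' z)
    (h : Lo (pN l) U fun a z => b a z - φ z) (h' : Lo (pN l) U fun a z => b' a z - φ' z) :
    ∀ z ∈ U, dz k φ z = dz j φ' z := by
  have c : ContinuousOn (fun z => dz j φ' z - dz k φ z) U := fun z hz =>
    ((cd_dz (hφ z hz).2 j).sub (cd_dz (hφ z hz).1 k)).continuousAt.continuousWithinAt
  have key := hU.ae_eq_zero_of_integral_contDiff_smul_eq_zero (μ := volume)
    (c.locallyIntegrableOn hU.measurableSet) fun g h1 h2 h3 => by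
      have s1 : ∀ z ∈ U, ContDiffAt ℝ ∞ (fun z => (g z : ℂ)) z := fun z _ =>
        cd_ofReal h1.contDiffAt
      have s0 : ∀ z ∈ U, z ∉ tsupport g → (g z : ℂ) = 0 := fun z _ hz => by
        simp [image_eq_zero_of_notMem_tsupport hz]
      have t := (idN l).add _ _
        (pair (idN l) hU h2 h3 (fun z hz => (cd_dz (s1 z hz) k).continuousAt) (off hU h2 s0 k).1 h)
        (pair (idN l) hU h2 h3 (fun z hz => (cd_dz (s1 z hz) j).continuousAt) (off hU h2 s0 j).1 h')
      rw [← setIntegral_eq_integral_of_forall_compl_eq_zero (s := U) fun z hz => by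
        simp [image_eq_zero_of_notMem_tsupport fun h => hz (h3 h)], ← enorm_eq_zero]
      refine le_antisymm (ge_of_tendsto' t fun a => ?_) zero_le
      have d := fun z hz => (hb a z hz).1.sub (hφ z hz).1
      have d' := fun z hz => (hb a z hz).2.1.sub (hφ z hz).2
      have i : ∀ {f : E n → ℂ}, (∀ z ∈ U, ContDiffAt ℝ ∞ f z) → ∀ m,
          IntegrableOn (fun z => g z * dz m f z) U := fun hf m => intU hU h2 h3
        (fun z hz => ((s1 z hz).mul (cd_dz (hf z hz) m)).continuousAt) fun z hz h => by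
          rw [s0 z hz h, zero_mul]
      rw [← enorm_neg (∫ z in U, dz k _ z * _), ← (ibp hU h2 h3 s1 s0 d k).1,
        ← enorm_neg (∫ z in U, dz j _ z * _), ← (ibp hU h2 h3 s1 s0 d' j).1]
      refine le_trans (le_of_eq (congrArg _ ?_)) enorm_sub_le
      rw [← integral_sub (i d k) (i d' j)]
      refine setIntegral_congr_fun hU.measurableSet fun z hz => ?_
      simp only [real_smul]
      rw [dz_sub (cd_diff (hb a z hz).1) (cd_diff (hφ z hz).1),
        dz_sub (cd_diff (hb a z hz).2.1) (cd_diff (hφ z hz).2), (hb a z hz).2.2]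
      ring
  intro z hz
  exact (sub_eq_zero.1 (Measure.eqOn_open_of_ae_eq (μ := volume)
    ((ae_restrict_iff' hU.measurableSet).2 key) hU c continuousOn_const hz)).symm

end Pool.Agent.Lib.VF72
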