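import Pool.Agent.Lib.HS32.EKit

/-! Integrals over the complex line that depend on a point of the coordinate space. -/

open scoped Classical Topology ContDiff Convolution
open Set MeasureTheory Complex Metric Filter

noncomputable section

namespace Pool.Agent.Lib.VF72

open Pool.Agent.Lib.SV (E)
open Pool.Agent.Lib.HS32

variable {n : ℕ} {U : Set (E n)} {Ψ Ψ' : ℂ → E n → ℂ} {w : ℂ → ℂ} {z : E n}

/-- An integrable weight with compact support. -/
structure Wg (w : ℂ → ℂ) : Prop where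
  int : Integrable w
  cpt : HasCompactSupport w

theorem wg_of (h : Continuous w) (hc : HasCompactSupport w) : Wg w :=
  ⟨h.integrable_of_hasCompactSupport hc, hc⟩

theorem Wg.conj (h : Wg w) : Wg fun t => star (w t) :=
  ⟨(conjCLE : ℂ →L[ℝ] ℂ).integrable_comp h.int, h.cpt.comp_left (g := fun c => star c) (star_zero ℂ)⟩

/-- Jointly smooth in the parameter and in the point. -/
def Jt (U : Set (E n)) (Ψ : ℂ → E n → ℂ) : Prop :=
  ∀ t, ∀ z ∈ U, ContDiffAt ℝ ∞ (fun p : ℂ × E n => Ψ p.1 p.2) (t, z)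

theorem Jt.right (h : Jt U Ψ) (t : ℂ) (hz : z ∈ U) : ContDiffAt ℝ ∞ (Ψ t) z :=
  ContDiffAt.comp (f := fun x => (t, x)) z (h t z hz) (contDiffAt_const.prodMk contDiffAt_id)

theorem Jt.left (h : Jt U Ψ) (hz : z ∈ U) : ContDiff ℝ ∞ fun t => Ψ t z :=
  contDiff_iff_contDiffAt.2 fun t =>
    ContDiffAt.comp (f := fun s => (s, z)) t (h t z hz) (contDiffAt_id.prodMk contDiffAt_const)

theorem Jt.mul (h : Jt U Ψ) (h' : Jt U Ψ') : Jt U fun t z => Ψ t z * Ψ' t z :=
  fun t z hz => (h t z hz).mul (h' t z hz)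

theorem Jt.sum {ι : Type} [Fintype ι] {Ψ : ι → ℂ → E n → ℂ} (h : ∀ a, Jt U (Ψ a)) :
    Jt U fun t z => ∑ a, Ψ a t z := fun t z hz => ContDiffAt.sum fun a _ => h a t z hz

theorem jt_const {f : E n → ℂ} (h : ∀ z ∈ U, ContDiffAt ℝ ∞ f z) : Jt U fun _ z => f z :=
  fun t z hz => ContDiffAt.comp (f := Prod.snd) (t, z) (h z hz) contDiffAt_snd

theorem Jt.intg (h : Jt U Ψ) (hw : Wg w) (hz : z ∈ U) : Integrable fun t => w t * Ψ t z := by
  have h1 : IntegrableOn (fun t => w t * Ψ t z) (tsupport w) :=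
    hw.int.integrableOn.mul_continuousOn (h.left hz).continuous.continuousOn hw.cpt
  exact (integrableOn_iff_integrable_of_support_subset
    ((Function.support_mul_subset_left _ _).trans (subset_tsupport w))).1 h1

theorem Jt.fd_eq (h : Jt U Ψ) (t : ℂ) (hz : z ∈ U) : HasFDerivAt (Ψ t)
    ((fderiv ℝ (fun p : ℂ × E n => Ψ p.1 p.2) (t, z)).comp (ContinuousLinearMap.inr ℝ ℂ (E n))) z :=
  HasFDerivAt.comp (f := fun x => (t, x)) z ((h t z hz).differentiableAt (by simp)).hasFDerivAt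
    (hasFDerivAt_prodMk_right t z)

theorem Jt.dir (h : Jt U Ψ) (hU : IsOpen U) (v : E n) : Jt U fun t z => fderiv ℝ (Ψ t) z v := by
  intro t z hz
  refine (((h t z hz).fderiv_right (m := ∞) (by simp)).clm_apply
    (contDiffAt_const (c := ((0 : ℂ), v)))).congr_of_eventuallyEq ?_
  filter_upwards [(hU.preimage continuous_snd).mem_nhds (show (t, z) ∈ Prod.snd ⁻¹' U from hz)]
    with p hp
  rw [(h.fd_eq p.1 hp).fderiv]
  rfl

theorem Jt.dz (h : Jt U Ψ) (hU : IsOpen U) (j : Fin n) : Jt U fun t => dz j (Ψ t) :=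
  fun t z hz => ((h.dir hU _ t z hz).sub (contDiffAt_const.mul (h.dir hU _ t z hz))).div_const _

theorem Jt.dzb (h : Jt U Ψ) (hU : IsOpen U) (j : Fin n) : Jt U fun t => dzb j (Ψ t) :=
  fun t z hz => ((h.dir hU _ t z hz).add (contDiffAt_const.mul (h.dir hU _ t z hz))).div_const _

theorem Jt.sm (h : Jt U Ψ) (hw : Wg w) (hU : IsOpen U) (hz : z ∈ U) :
    ContDiffAt ℝ ∞ (fun x => ∫ t, w t * Ψ t x) z := by
  obtain ⟨R, hR0, hR⟩ := hw.cpt.isCompact.isBounded.subset_closedBall_lt 0 0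
  let χ : ContDiffBump (0 : ℂ) := ⟨R, R + 1, hR0, by linarith⟩
  have h1 := contDiffOn_convolution_right_with_param_comp (μ := volume) (n := ⊤)
    (ContinuousLinearMap.mul ℝ ℂ) (v := fun _ : E n => (0 : ℂ)) contDiffOn_const (f := w)
    (g := fun x y => (χ y : ℂ) * Ψ (-y) x) (k := closedBall 0 (R + 1)) hU
    (isCompact_closedBall _ _)
    (fun x y _ hy => by rw [χ.zero_of_le_dist (le_of_lt (by simpa using hy))]; simp)
    hw.int.locallyIntegrable (fun p hp => ContDiffAt.contDiffWithinAt (by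
      refine ContDiffAt.mul ((ofRealCLM.contDiff.comp (χ.contDiff.comp contDiff_snd)).contDiffAt) ?_
      exact ContDiffAt.comp (f := fun p : E n × ℂ => (-p.2, p.1)) p (h (-p.2) p.1 hp.1)
        (contDiffAt_snd.neg.prodMk contDiffAt_fst)))
  refine (h1.contDiffAt (hU.mem_nhds hz)).congr_of_eventuallyEq (.of_forall fun x => ?_)
  refine integral_congr_ae (.of_forall fun t => ?_)
  by_cases ht : w t = 0
  · simp [ht]
  have : χ (-t) = 1 := χ.one_of_mem_closedBall (by simpa using hR (subset_tsupport w ht))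
  simp [this]

theorem Jt.der (h : Jt U Ψ) (hw : Wg w) (hU : IsOpen U) (hz : z ∈ U) (v : E n) :
    fderiv ℝ (fun x => ∫ t, w t * Ψ t x) z v = ∫ t, w t * fderiv ℝ (Ψ t) z v := by
  obtain ⟨r, hr, hb⟩ := nhds_basis_closedBall.mem_iff.1 (hU.mem_nhds hz)
  set D := fun p : ℂ × E n =>
    (fderiv ℝ (fun p : ℂ × E n => Ψ p.1 p.2) p).comp (ContinuousLinearMap.inr ℝ ℂ (E n)) with hD
  have hc : ∀ t, ∀ x ∈ U, ContinuousAt D (t, x) := fun t x hx =>
    (((h t x hx).fderiv_right (m := ∞) (by simp)).clm_comp contDiffAt_const).continuousAt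
  obtain ⟨C, hC⟩ := (hw.cpt.isCompact.prod (isCompact_closedBall z r)).exists_bound_of_continuousOn
    (f := D) fun p hp => (hc p.1 p.2 (hb hp.2)).continuousWithinAt
  have hm : AEStronglyMeasurable (fun t => w t • D (t, z)) volume :=
    hw.int.1.smul (continuous_iff_continuousAt.2 fun t => ContinuousAt.comp (f := fun s => (s, z))
      (hc t z hz) (by fun_prop)).aestronglyMeasurable
  have hb' : ∀ t, ∀ x ∈ ball z r, ‖w t • D (t, x)‖ ≤ ‖w t‖ * C := fun t x hx => by
    rw [norm_smul]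
    by_cases ht : w t = 0
    · simp [ht]
    exact mul_le_mul_of_nonneg_left (hC (t, x) ⟨subset_tsupport w ht, ball_subset_closedBall hx⟩)
      (norm_nonneg _)
  have key := hasFDerivAt_integral_of_dominated_of_fderiv_le (μ := volume) (s := ball z r)
    (F := fun x t => w t * Ψ t x) (F' := fun x t => w t • D (t, x)) (bound := fun t => ‖w t‖ * C)
    (ball_mem_nhds z hr)
    ((hU.eventually_mem hz).mono fun x hx => (h.intg hw hx).1) (h.intg hw hz) hm
    (.of_forall hb') (hw.int.norm.mul_const C)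
    (.of_forall fun t x hx => (h.fd_eq t (hb (ball_subset_closedBall hx))).const_mul (w t))
  rw [key.fderiv, ContinuousLinearMap.integral_apply
    ((hw.int.norm.mul_const C).mono' hm (.of_forall fun t => hb' t z (mem_ball_self hr)))]
  refine integral_congr_ae (.of_forall fun t => ?_)
  simp only [(h.fd_eq t hz).fderiv]
  rfl

theorem Jt.dz_int (h : Jt U Ψ) (hw : Wg w) (hU : IsOpen U) (hz : z ∈ U) (j : Fin n) :
    HS32.dz j (fun x => ∫ t, w t * Ψ t x) z = ∫ t, w t * HS32.dz j (Ψ t) z := by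
  rw [HS32.dz, h.der hw hU hz, h.der hw hU hz, ← integral_const_mul,
    ← integral_sub ((h.dir hU _).intg hw hz) (((h.dir hU _).intg hw hz).const_mul _),
    ← integral_div]
  exact integral_congr_ae (.of_forall fun t => by simp only [HS32.dz]; ring)

theorem Jt.dzb_int (h : Jt U Ψ) (hw : Wg w) (hU : IsOpen U) (hz : z ∈ U) (j : Fin n) :
    HS32.dzb j (fun x => ∫ t, w t * Ψ t x) z = ∫ t, w t * HS32.dzb j (Ψ t) z := by
  rw [HS32.dzb, h.der hw hU hz, h.der hw hU hz, ← integral_const_mul,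
    ← integral_add ((h.dir hU _).intg hw hz) (((h.dir hU _).intg hw hz).const_mul _),
    ← integral_div]
  exact integral_congr_ae (.of_forall fun t => by simp only [HS32.dzb]; ring)

end Pool.Agent.Lib.VF72
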