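import Pool.Agent.Lib.VF72.Avg

/-! Radial weights. -/

open scoped Classical Topology ContDiff ENNReal ComplexOrder Matrix
open Set MeasureTheory Complex Metric Filter

noncomputable section

namespace Pool.Agent.Lib.VF72

open Pool.Agent.Lib.HS32

variable {n : ℕ} {q q' p : ℝ → ℝ}

/-- A radial function. -/
def rad (q : ℝ → ℝ) (t : ℂ) : ℂ := q (‖t‖ ^ 2)

theorem dw_rad {t : ℂ} {c : ℝ} (h : HasDerivAt q c (‖t‖ ^ 2)) : dw 1 (rad q) t = c * star t := by
  have h1 := (ofRealCLM.hasFDerivAt.comp t (HasDerivAt.comp_hasFDerivAt (f := fun x : ℂ => ‖x‖ ^ 2)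
    t h (hasStrictFDerivAt_norm_sq t).hasFDerivAt)).fderiv
  rw [dw, show fderiv ℝ (rad q) t = _ from h1]
  apply Complex.ext <;> simp [Complex.inner] <;> ring

theorem sw_rad (h : ContDiff ℝ ∞ q) {b : ℝ} (hb : ∀ s, b ≤ s → q s = 0) : Sw (rad q) :=
  ⟨ofRealCLM.contDiff.comp (h.comp (contDiff_norm_sq ℝ)),
    .intro (isCompact_closedBall 0 (|b| + 1)) fun t ht => by
      rw [mem_closedBall_zero_iff, not_le] at ht
      rw [rad, hb _ (by nlinarith [le_abs_self b, abs_nonneg b]), ofReal_zero]⟩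

theorem prim (h : ContDiff ℝ ∞ p) (b : ℝ) : ContDiff ℝ ∞ (fun s => ∫ x in b..s, p x) ∧
    ∀ s, HasDerivAt (fun s => ∫ x in b..s, p x) (p s) s :=
  have d := fun s => (h.continuous.integral_hasStrictDerivAt b s).hasDerivAt
  ⟨contDiff_infty_iff_deriv.2 ⟨fun s => (d s).differentiableAt,
    by rwa [show deriv _ = p from funext fun s => (d s).deriv]⟩, d⟩

theorem prim0 {b s : ℝ} (hb : ∀ s, b ≤ s → p s = 0) (hs : b ≤ s) : ∫ x in b..s, p x = 0 := by
  rw [intervalIntegral.integral_congr (g := fun _ => 0) fun x hx => hb x (by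
    rw [uIcc_of_le hs] at hx; exact hx.1), intervalIntegral.integral_zero]

/-- A cut-off function. -/
structure Prof (q : ℝ → ℝ) : Prop where
  sm : ContDiff ℝ ∞ q
  one : ∀ᶠ s in 𝓝 0, q s = 1
  zero : ∃ b, ∀ s, b ≤ s → q s = 0
  anti : ∀ s, deriv q s ≤ 0

/-- The weight of a cut-off function. -/
def rho (q : ℝ → ℝ) : ℂ → ℂ := rad fun s => -deriv q s

theorem Prof.sw (h : Prof q) : Sw (rho q) := by
  obtain ⟨b, hb⟩ := h.zero
  refine sw_rad (contDiff_infty_iff_deriv.1 h.sm).2.neg (b := b + 1) fun s hs => ?_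
  rw [EventuallyEq.deriv_eq (f := fun _ => 0)
    (mem_of_superset (Ioi_mem_nhds (by linarith : b < s)) fun x hx => hb x (le_of_lt hx))]
  simp

theorem Prof.pos (h : Prof q) (t : ℂ) : 0 ≤ rho q t := zero_le_real.2 (neg_nonneg.2 (h.anti _))

theorem rho_real (q : ℝ → ℝ) (t : ℂ) : star (rho q t) = rho q t := conj_ofReal _

variable {M : Mf n} {A : Act M} {S : M.Fam (Mat n)}

theorem Prof.pomp (h : Prof q) (hS : M.Clo S) : M.All fun e z => A.av (rho q) S e z =
    Real.pi • S e z + dC (fun y => A.av (fun t => (star t)⁻¹ * rad q t) S e y *ᵥ A.V e y) z :=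
  fun e he z hz => by
    obtain ⟨b, hb⟩ := h.zero
    have h1 := Act.av_pomp (A := A) hS (sw_rad h.sm hb) (by simp [rad, h.one.self_of_nhds])
      e he z hz
    have h2 : A.av (fun t => (star t)⁻¹ * dw 1 (rad q) t) S e z = -A.av (rho q) S e z := by
      ext i j
      refine Eq.trans (integral_congr_ae (.of_forall fun t => ?_)) (integral_neg _)
      beta_reduce
      rw [dw_rad (h.sm.differentiable (by simp) _).hasDerivAt, rho, rad, ofReal_neg, neg_mul, neg_neg]
      by_cases ht : t = 0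
      · simp [ht, EventuallyEq.deriv_eq (f := fun _ => 1) h.one]
      · rw [mul_left_comm, inv_mul_cancel₀ (star_ne_zero.2 ht), mul_one]
    beta_reduce at h1 ⊢
    rw [h2, neg_smul, ← sub_eq_iff_eq_add] at h1
    rw [← neg_inj, ← h1, show Real.pi • S e z = (Real.pi : ℂ) • S e z from rfl]
    abel

theorem Prof.cls (h : Prof q) (h' : Prof q') (hS : M.Clo S) : ∃ u, M.Sm u ∧
    M.All fun e z => A.av (rho q) S e z = A.av (rho q') S e z + M.hs u e z := by
  obtain ⟨b, hb⟩ := h.zero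
  obtain ⟨b', hb'⟩ := h'.zero
  have s : ContDiff ℝ ∞ fun s => (q' s - q s) / s := contDiff_iff_contDiffAt.2 fun s => by
    by_cases hs : s = 0
    · subst hs
      refine (contDiffAt_const (c := 0)).congr_of_eventuallyEq ?_
      filter_upwards [h.one, h'.one] with x h1 h2
      rw [h1, h2, sub_self, zero_div]
    · exact (h'.sm.sub h.sm).contDiffAt.div contDiffAt_id hs
  obtain ⟨s1, s2⟩ := prim s (max b b')
  have w0 := sw_rad s1 fun x hx => prim0 (fun y hy => by
    rw [hb y (le_of_max_le_left hy), hb' y (le_of_max_le_right hy), sub_self, zero_div]) hx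
  obtain ⟨u, hu, k⟩ := Act.av_ex (A := A) hS w0 fun t => conj_ofReal _
  refine ⟨u, hu, fun e he z hz => ?_⟩
  have i := fun w (hw : Wg w) i j =>
    (hw.mul (cd_dw ((Act.jt (A := A) hS.toTen he i j).left hz)).continuous).int
  have w1 := (sw_rad h.sm hb).inv
  have w2 := (sw_rad h'.sm hb').inv
  have w3 := w0.dw.wg.conj
  beta_reduce
  rw [h.pomp hS e he z hz, h'.pomp hS e he z hz, add_assoc, ← sub_neg_eq_add (b := M.hs u e z),
    ← k e he z hz]
  congr 1
  ext a c
  rw [Matrix.sub_apply, Act.av_dC hS w1 he hz, Act.av_dC hS w2 he hz, Act.av_dC hS w3 he hz,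
    ← integral_sub (i _ w2 a c) (i _ w3 a c)]
  refine integral_congr_ae (.of_forall fun t => ?_)
  beta_reduce
  rw [← sub_mul, dw_rad (s2 _)]
  congr 1
  by_cases ht : t = 0
  · simp [ht]
  have h0 : (starRingEnd ℂ) t ≠ 0 := (map_ne_zero _).2 ht
  rw [star_mul', star_star, star_def, conj_ofReal, rad, rad, ofReal_div, ofReal_sub, ofReal_pow,
    ← mul_conj']
  field_simp
  ring

theorem prof_bump (φ : ContDiffBump (3 : ℝ)) (hφ : φ.rOut ≤ 2) {c : ℝ} (hc : 0 < c) :
    ∃ q, Prof q ∧ rho q = rad fun s => c * φ.normed volume (c * s) := by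
  obtain ⟨s1, s2⟩ := prim (φ.contDiff_normed (μ := volume) (n := ⊤)) 5
  have d := fun s => ((s2 (c * s)).comp s ((hasDerivAt_id' s).const_mul c)).neg.deriv
  have sp : Function.support (φ.normed volume) ⊆ Ioo 1 5 := by
    rw [φ.support_normed_eq, Real.ball_eq_Ioo]
    exact Ioo_subset_Ioo (by linarith) (by linarith)
  refine ⟨_, ⟨(s1.comp (contDiff_const.mul contDiff_id)).neg, ?_, ⟨5 / c, fun s hs => ?_⟩,
    fun s => (d s).trans_le ?_⟩, congrArg rad (funext fun s => ?_)⟩
  · filter_upwards [Iio_mem_nhds (inv_pos.2 hc)] with s hs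
    have : c * s < 1 := (lt_inv_mul_iff₀ hc).1 (by simpa using hs)
    simp only [Function.comp_apply, id]
    rw [← intervalIntegral.integral_symm, intervalIntegral.integral_eq_integral_of_support_subset
      (sp.trans fun x hx => ⟨by linarith [hx.1], hx.2.le⟩), φ.integral_normed]
  · simp only [Function.comp_apply, id]
    rw [prim0 (fun y hy => Function.notMem_support.1 fun h => (sp h).2.not_ge hy)
      ((div_le_iff₀' hc).1 hs), neg_zero]
  · exact neg_nonpos.2 (mul_nonneg (φ.nonneg_normed _) (by positivity))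
  · exact (congrArg Neg.neg (d s)).trans (by ring)

theorem prof_small {κ : ℝ} (hκ : 0 < κ) :
    ∃ q q', Prof q ∧ Prof q' ∧ ∀ t, ‖dw 1 (rho q) t‖ ≤ κ * ‖rho q' t‖ := by
  let φ : ContDiffBump (3 : ℝ) := ⟨1 / 2, 1, by norm_num, by norm_num⟩
  let ψ : ContDiffBump (3 : ℝ) := ⟨1, 2, by norm_num, by norm_num⟩
  have s := φ.contDiff_normed (μ := volume) (n := ⊤)
  obtain ⟨B, hB⟩ := (φ.hasCompactSupport_normed (μ := volume)).deriv.exists_bound_of_continuous
    (s.continuous_deriv (by simp))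
  have B0 := (norm_nonneg _).trans (hB 0)
  have m := ψ.integral_pos (μ := volume)
  set c := κ / (2 * B * (∫ x, ψ x) + 1) with hc
  have c0 : 0 < c := by positivity
  obtain ⟨q, h1, h2⟩ := prof_bump φ (by norm_num [φ]) (c := c ^ 2) (by positivity)
  obtain ⟨q', h3, h4⟩ := prof_bump ψ le_rfl (c := c ^ 2) (by positivity)
  refine ⟨q, q', h1, h3, fun t => ?_⟩
  rw [h2, h4, dw_rad (q := fun s => c ^ 2 * φ.normed volume (c ^ 2 * s))
    (((s.differentiable (by simp) _).hasDerivAt.comp _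
    ((hasDerivAt_id' _).const_mul (c ^ 2))).const_mul (c ^ 2)), rad]
  set r := c ^ 2 * ‖t‖ ^ 2 with hr
  by_cases h : r ∈ closedBall (3 : ℝ) 1
  · have h5 : c * ‖t‖ ≤ 2 := by
      rw [Real.closedBall_eq_Icc] at h
      exact abs_le_of_sq_le_sq' (by rw [mul_pow]; linarith [h.2]) (by norm_num) |>.2
    have h6 : c * (2 * B) ≤ κ * (1 / ∫ x, ψ x) := by
      rw [mul_one_div, le_div_iff₀ m, hc, mul_assoc, div_mul_eq_mul_div,
        div_le_iff₀ (by positivity)]
      nlinarith
    rw [ψ.normed_def, ψ.one_of_mem_closedBall h]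
    simp only [norm_mul, norm_real, norm_star, mul_one, Real.norm_of_nonneg (sq_nonneg c),
      Real.norm_of_nonneg (one_div_pos.2 m).le]
    calc _ = c ^ 2 * (c * (c * ‖t‖ * ‖deriv (φ.normed volume) r‖)) := by ring
      _ ≤ c ^ 2 * (c * (2 * B)) := by gcongr; exact hB r
      _ ≤ _ := by nlinarith [sq_nonneg c]
  · rw [deriv_of_notMem_tsupport (by rwa [φ.tsupport_normed_eq])]
    simp only [zero_mul, mul_zero, ofReal_zero, norm_zero]
    positivity

end Pool.Agent.Lib.VF72
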